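import Pool.Agent.P.MP_c4d261_al.Low

/-!
Lower bound data in a lamplighter space: the commutator loop of two distant lamps can be pushed
into many disjoint regions, one for each content of a moving register.
-/

set_option autoImplicit false

open Finsupp

namespace Pool.Agent.P.MP_c4d261_al

variable {X L : Type}

/-- The colouring obtained by switching the lamps of a list. -/
noncomputable def sumL (l : List X) : X →₀ ZMod 2 := (l.map fun s => single s (1 : ZMod 2)).sum

theorem sumL_nil : sumL ([] : List X) = 0 := by simp [sumL]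

theorem sumL_cons (s : X) (l : List X) : sumL (s :: l) = single s 1 + sumL l := by simp [sumL]

theorem sumL_append (l l' : List X) : sumL (l ++ l') = sumL l + sumL l' := by simp [sumL]

namespace IsLamp

variable {mX : NMetric X} {mL : NMetric L} (Λ : IsLamp mX mL)

/-- The value of `ψ` along the path switching the lamps of a list from the position `x`. -/
noncomputable def walk (ψ : L → L → ZMod 2) (x : X) : (X →₀ ZMod 2) → List X → ZMod 2
  | _, [] => 0
  | c, s :: l => ψ (Λ.mk' c x) (Λ.mk' (c + single s 1) x) + walk ψ x (c + single s 1) l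

variable {ψ : L → L → ZMod 2} {δ r : ℕ}

theorem walk_append (x : X) (l l' : List X) : ∀ c,
    Λ.walk ψ x c (l ++ l') = Λ.walk ψ x c l + Λ.walk ψ x (c + sumL l) l' := by
  induction l with
  | nil => intro c; simp [walk, sumL_nil]
  | cons s l ih => intro c; simp [walk, ih, sumL_cons, add_assoc]

theorem walk_perm (hψ : Cocycle mL r ψ) (hr : 4 * δ + 2 ≤ r) (x : X) {l l' : List X}
    (h : l.Perm l') : (∀ s ∈ l, mX.d x s ≤ δ) → ∀ c, Λ.walk ψ x c l = Λ.walk ψ x c l' := by
  induction h with
  | nil => intro _ c; rfl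
  | cons s _ ih =>
    intro hl c
    simp only [walk]
    rw [ih fun s hs => hl s (List.mem_cons_of_mem _ hs)]
  | swap s s' l =>
    intro hl c
    simp only [walk, ← add_assoc]
    have h1 := hl s (by simp)
    have h2 := hl s' (by simp)
    have e : c + single s' 1 + single s 1 = c + single s 1 + single s' 1 := add_right_comm _ _ _
    have d1 := Λ.toggle_far c x s
    have d2 := Λ.toggle_far c x s'
    have d3 := Λ.toggle_far (c + single s 1) x s'
    have d4 := Λ.toggle_far (c + single s' 1) x s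
    rw [e] at d4 ⊢
    have t1 := mL.tri (Λ.mk' c x) (Λ.mk' (c + single s 1) x)
      (Λ.mk' (c + single s 1 + single s' 1) x)
    rw [hψ.square (x := Λ.mk' c x) (y := Λ.mk' (c + single s' 1) x)
      (z := Λ.mk' (c + single s 1) x) (w := Λ.mk' (c + single s 1 + single s' 1) x)
      (by omega) (by omega) (by omega) (by omega) (by omega)]
  | trans h1 _ ih1 ih2 =>
    intro hl c
    rw [ih1 hl, ih2 fun s hs => hl s (h1.mem_iff.2 hs)]

theorem walk_move (hψ : Cocycle mL r ψ) (hr : 4 * δ + 2 ≤ r) {x x' : X} (hx : mX.d x x' ≤ δ)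
    (l : List X) : (∀ s ∈ l, mX.d x s ≤ δ ∧ mX.d x' s ≤ δ) → ∀ c,
      ψ (Λ.mk' c x) (Λ.mk' c x') + Λ.walk ψ x' c l =
        Λ.walk ψ x c l + ψ (Λ.mk' (c + sumL l) x) (Λ.mk' (c + sumL l) x') := by
  induction l with
  | nil => intro _ c; simp [walk, sumL_nil]
  | cons s l ih =>
    intro hl c
    have h1 := hl s (by simp)
    have d1 := Λ.toggle_far c x s
    have d2 := Λ.toggle_far c x' s
    have d3 := Λ.move c x x'
    have d4 := Λ.move (c + single s 1) x x'
    have t1 := mL.tri (Λ.mk' c x) (Λ.mk' c x') (Λ.mk' (c + single s 1) x')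
    have := ih (fun s hs => hl s (List.mem_cons_of_mem _ hs)) (c + single s 1)
    simp only [walk, sumL_cons, ← add_assoc]
    rw [hψ.square (x := Λ.mk' c x) (y := Λ.mk' c x')
      (z := Λ.mk' (c + single s 1) x) (w := Λ.mk' (c + single s 1) x')
      (by omega) (by omega) (by omega) (by omega) (by omega), add_assoc, this, ← add_assoc]

theorem walk_exact (E : L → ZMod 2) (x : X) (Q : (X →₀ ZMod 2) → Prop) (l : List X) :
    (∀ c, Q c → ∀ s ∈ l, Q (c + single s 1) ∧ ψ (Λ.mk' c x) (Λ.mk' (c + single s 1) x) =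
      E (Λ.mk' c x) + E (Λ.mk' (c + single s 1) x)) → ∀ c, Q c → Q (c + sumL l) ∧
        Λ.walk ψ x c l = E (Λ.mk' c x) + E (Λ.mk' (c + sumL l) x) := by
  induction l with
  | nil => intro _ c hc; simp [walk, sumL_nil, hc, z2_add_self]
  | cons s l ih =>
    intro hl c hc
    obtain ⟨h1, h2⟩ := hl c hc s (by simp)
    obtain ⟨h3, h4⟩ := ih (fun c hc s hs => hl c hc s (List.mem_cons_of_mem _ hs)) _ h1
    simp only [walk, sumL_cons, ← add_assoc]
    refine ⟨h3, ?_⟩
    rw [h2, h4]
    have := z2_add_self (E (Λ.mk' (c + single s 1) x))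
    linear_combination this

end IsLamp

/-- Index set of the edges of the loop. -/
abbrev Idx (t : ℕ) : Type := (ZMod 2 × ZMod 2 × Fin t) ⊕ ZMod 2 ⊕ ZMod 2

/-- Origins of the edges of the loop. -/
def idxA (t : ℕ) : Idx t → ZMod 2 × ZMod 2 × ℕ
  | .inl q => (q.1, q.2.1, q.2.2)
  | .inr (.inl v) => (0, v, 0)
  | .inr (.inr u) => (u, 0, t)

/-- Endpoints of the edges of the loop. -/
def idxB (t : ℕ) : Idx t → ZMod 2 × ZMod 2 × ℕ
  | .inl q => (q.1, q.2.1, q.2.2 + 1)
  | .inr (.inl v) => (1, v, 0)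
  | .inr (.inr u) => (u, 1, t)

theorem z2_sum (f : ZMod 2 → ZMod 2) : ∑ u, f u = f 0 + f 1 :=
  Fin.sum_univ_two (f := f)

theorem telescope (g : ℕ → ZMod 2) (t : ℕ) : ∑ i : Fin t, (g i + g (i + 1)) = g 0 + g t := by
  induction t with
  | zero => simp [z2_add_self]
  | succ t ih =>
    rw [Fin.sum_univ_castSucc]
    simp only [Fin.val_castSucc, Fin.val_last]
    rw [ih]
    have := z2_add_self (g t)
    linear_combination this

theorem idx_cycle (t : ℕ) : IsCycle (idxA t) (idxB t) := by
  intro U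
  simp only [Fintype.sum_sum_type, Fintype.sum_prod_type, idxA, idxB]
  have := fun u v => telescope (fun i => U (u, v, i)) t
  simp only [this, z2_sum]
  have h2 : (2 : ZMod 2) = 0 := rfl
  linear_combination (U (0, 0, 0) + U (0, 1, 0) + U (1, 0, 0) + U (1, 1, 0) + U (0, 0, t) +
    U (0, 1, t) + U (1, 0, t) + U (1, 1, t)) * h2

theorem base_low {mX : NMetric X} {mL : NMetric L} (Λ : IsLamp mX mL) {D : Type} [Fintype D]
    (P : ℕ → X) (reg : ℕ → D → X) (t δ r R n₁ : ℕ) (hr : 4 * δ + 2 ≤ r)
    (hP : ∀ i < t, mX.d (P i) (P (i + 1)) ≤ δ)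
    (h0 : ∀ i ≤ t, ∀ s, mX.d (P i) (reg i s) ≤ δ)
    (h1 : ∀ i < t, ∀ s, mX.d (P i) (reg (i + 1) s) ≤ δ)
    (h2 : ∀ i < t, ∀ s, mX.d (P (i + 1)) (reg i s) ≤ δ)
    (inj : ∀ i ≤ t, ∀ j ≤ t, ∀ s s', reg i s = reg j s' → i = j ∧ s = s')
    (ne : ∀ i ≤ t, ∀ s, reg i s ≠ P 0 ∧ reg i s ≠ P t)
    (far : 2 * R < mX.d (P 0) (P t)) (hb : ∀ i ≤ t, mX.d (P 0) (P i) ≤ n₁) :
    Nonempty (LowData mL (Λ.mk' 0 (P 0)) (2 * δ + 1) r R (3 * n₁ + 2) (2 ^ Fintype.card D)) := by
  classical
  have hne : P 0 ≠ P t := fun h => by rw [← h, mX.refl] at far; omega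
  let base : ZMod 2 → ZMod 2 → X →₀ ZMod 2 := fun u v => single (P 0) u + single (P t) v
  have b0 : ∀ u v, base u v (P 0) = u := fun u v => by simp [base, single_eq_of_ne hne]
  have bt : ∀ u v, base u v (P t) = v := fun u v => by simp [base, single_eq_of_ne hne.symm]
  have t0 : ∀ v, base 1 v = base 0 v + single (P 0) 1 := fun v => by simp [base, add_comm]
  have tt : ∀ u, base u 1 = base u 0 + single (P t) 1 := fun u => by simp [base]
  let F : ZMod 2 × ZMod 2 × ℕ → L := fun q => Λ.mk' (base q.1 q.2.1) (P q.2.2)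
  let W : Finset X :=
    insert (P 0) (insert (P t) ((Finset.range (t + 1) ×ˢ Finset.univ).image fun q => reg q.1 q.2))
  obtain ⟨B, hB, -⟩ := Λ.exists_box W ((Finset.range (t + 1)).image P)
  let lab : L → Finset D := fun y => Finset.univ.filter fun s => ∃ i ≤ t, Λ.col y (reg i s) ≠ 0
  have hball : ∀ u v, ∀ i ≤ t, mL.d (Λ.mk' 0 (P 0)) (F (u, v, i)) ≤ 3 * n₁ + 2 := by
    intro u v i hi
    have a1 : mL.d (Λ.mk' 0 (P 0)) (Λ.mk' (single (P 0) u) (P 0)) ≤ 1 := by
      by_cases hu : u = 0
      · simp [hu, mL.refl]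
      · simpa [z2_eq_one hu] using Λ.toggle 0 (P 0)
    have a2 : mL.d (Λ.mk' (single (P 0) u) (P 0)) (Λ.mk' (base u v) (P 0)) ≤ 2 * n₁ + 1 := by
      by_cases hv : v = 0
      · simp [base, hv, mL.refl]
      · have := Λ.toggle_far (single (P 0) u) (P 0) (P t)
        have := hb t le_rfl
        simp only [base, z2_eq_one hv]
        omega
    have a3 := (Λ.move (base u v) (P 0) (P i)).trans (hb i hi)
    have a4 := mL.tri (Λ.mk' 0 (P 0)) (Λ.mk' (single (P 0) u) (P 0)) (Λ.mk' (base u v) (P 0))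
    have a5 := mL.tri (Λ.mk' 0 (P 0)) (Λ.mk' (base u v) (P 0)) (Λ.mk' (base u v) (P i))
    simp only [F]
    omega
  refine ⟨{ ι := Idx t
            a := fun j => F (idxA t j)
            b := fun j => F (idxB t j)
            cyc := (idx_cycle t).map F
            step := ?_
            ball := ?_
            det := ?_
            κ := Finset D
            card := by rw [Fintype.card_finset]
            u := lab
            J := fun α => B.filter fun y => lab y = α
            lab := fun I y hy => (Finset.mem_filter.1 hy).2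
            low := ?_ }⟩
  · rintro (⟨u, v, i⟩ | v | u)
    · have := (Λ.move (base u v) _ _).trans (hP i i.2)
      simp only [F, idxA, idxB]
      omega
    · simp only [F, idxA, idxB, t0]
      exact (Λ.toggle _ _).trans (by omega)
    · simp only [F, idxA, idxB, tt]
      exact (Λ.toggle _ _).trans (by omega)
  · rintro (⟨u, v, i⟩ | v | u)
    · exact ⟨hball _ _ _ i.2.le, hball _ _ _ i.2⟩
    · exact ⟨hball _ _ _ (Nat.zero_le _), hball _ _ _ (Nat.zero_le _)⟩
    · exact ⟨hball _ _ _ le_rfl, hball _ _ _ le_rfl⟩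
  · refine ⟨fun x y => Λ.col x (P t) * (Λ.col x (P 0) + Λ.col y (P 0)), ?_, ?_⟩
    · intro x y z d1 d2 _
      beta_reduce
      by_cases e1 : Λ.col x (P t) = Λ.col y (P t)
      · rw [e1]
        have := z2_add_self (Λ.col y (P 0))
        linear_combination Λ.col y (P t) * this
      · have e2 : Λ.col z (P 0) = Λ.col y (P 0) := by
          by_contra e2
          have a1 := Λ.near_of_ne y x _ e1
          have a2 := Λ.near_of_ne y z _ e2
          have a3 := mX.tri (P 0) (Λ.pos y) (P t)
          rw [mL.symm y x] at a1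
          rw [mX.symm (P 0) (Λ.pos y)] at a3
          omega
        rw [e2, z2_add_self, mul_zero, add_zero]
    · simp only [Fintype.sum_sum_type, Fintype.sum_prod_type, idxA, idxB, F, Λ.col_mk, b0, bt,
        z2_add_self, z2_sum]
      simp
  · intro α ψ E hψ hE
    let l : ℕ → List X := fun i => α.toList.map (reg i)
    have hl : ∀ i x, x ∈ l i → ∃ s ∈ α, reg i s = x := fun i x hx => by simpa [l] using hx
    let Q : ℕ → (X →₀ ZMod 2) → Prop := fun i c => c.support ⊆ W ∧ (∀ s ∈ α, c (reg i s) ≠ 0) ∧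
      ∀ s ∉ α, ∀ j ≤ t, c (reg j s) = 0
    have QJ : ∀ i ≤ t, ∀ c, Q i c → ∀ j ≤ t, Λ.mk' c (P j) ∈ B.filter fun y => lab y = α := by
      intro i hi c hc j hj
      rw [Finset.mem_filter, hB, Λ.col_mk, Λ.pos_mk]
      refine ⟨⟨hc.1, Finset.mem_image_of_mem _ (Finset.mem_range.2 (by omega))⟩, ?_⟩
      ext s
      simp only [lab, Finset.mem_filter, Finset.mem_univ, true_and, Λ.col_mk]
      refine ⟨fun ⟨k, hk, e⟩ => ?_, fun hs => ⟨i, hi, hc.2.1 s hs⟩⟩
      by_contra hs
      exact e (hc.2.2 s hs k hk)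
    have regW : ∀ j ≤ t, ∀ s, reg j s ∈ W := fun j hj s => by
      simp only [W, Finset.mem_insert, Finset.mem_image]
      exact Or.inr (Or.inr ⟨(j, s), by simp; omega, rfl⟩)
    have Qtog : ∀ i ≤ t, ∀ j ≤ t, j ≠ i → ∀ c, Q i c → ∀ x ∈ l j, Q i (c + single x 1) := by
      intro i hi j hj hij c hc x hx
      obtain ⟨s, hs, rfl⟩ := hl j x hx
      refine ⟨?_, fun s' hs' => ?_, fun s' hs' k hk => ?_⟩
      · refine Finsupp.support_add.trans (Finset.union_subset hc.1 ?_)
        exact Finsupp.support_single_subset.trans (by simpa using regW j hj s)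
      · rw [Finsupp.add_apply, single_eq_of_ne fun e => hij (inj _ hi _ hj _ _ e).1.symm, add_zero]
        exact hc.2.1 s' hs'
      · rw [Finsupp.add_apply, single_eq_of_ne fun e => hs' (by rw [(inj _ hk _ hj s' s e).2]; exact hs),
          add_zero]
        exact hc.2.2 s' hs' k hk
    have breg : ∀ u v, ∀ j ≤ t, ∀ s, base u v (reg j s) = 0 := fun u v j hj s => by
      simp [base, single_eq_of_ne (ne j hj s).1, single_eq_of_ne (ne j hj s).2]
    have Qb : ∀ u v, ∀ i ≤ t, Q i (base u v + sumL (l i)) := by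
      intro u v i hi
      have e : sumL (l i) = ∑ s ∈ α, single (reg i s) 1 := by
        simp only [sumL, l, List.map_map]
        exact Finset.sum_map_toList α _
      rw [e]
      refine ⟨?_, fun s' hs' => ?_, fun s' hs' k hk => ?_⟩
      · refine Finsupp.support_add.trans (Finset.union_subset ?_ ?_)
        · refine Finsupp.support_add.trans (Finset.union_subset ?_ ?_)
          · exact Finsupp.support_single_subset.trans (by simp [W])
          · exact Finsupp.support_single_subset.trans (by simp [W])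
        · refine Finsupp.support_finsetSum.trans (Finset.biUnion_subset.2 fun s _ => ?_)
          exact Finsupp.support_single_subset.trans (by simpa using regW i hi s)
      · rw [Finsupp.add_apply, breg u v i hi, zero_add, Finsupp.finsetSum_apply,
          Finset.sum_eq_single s' (fun s _ hs =>
            single_eq_of_ne fun e => hs (inj _ hi _ hi _ _ e).2.symm) (fun h => (h hs').elim)]
        simp
      · rw [Finsupp.add_apply, breg u v k hk, zero_add, Finsupp.finsetSum_apply]
        exact Finset.sum_eq_zero fun s hs =>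
          single_eq_of_ne fun e => hs' (by rw [(inj _ hk _ hi s' s e).2]; exact hs)
    have ex : ∀ i ≤ t, ∀ j ≤ t, j ≠ i → (∀ s, mX.d (P i) (reg j s) ≤ δ) → ∀ c, Q i c →
        Q i (c + sumL (l j)) ∧ Λ.walk ψ (P i) c (l j) =
          E (Λ.mk' c (P i)) + E (Λ.mk' (c + sumL (l j)) (P i)) := by
      intro i hi j hj hij hd
      refine Λ.walk_exact E (P i) (Q i) (l j) fun c hc x hx => ?_
      have hq := Qtog i hi j hj hij c hc x hx
      refine ⟨hq, hE _ (QJ i hi _ hc i hi) _ (QJ i hi _ hq i hi) ?_⟩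
      obtain ⟨s, -, rfl⟩ := hl j x hx
      have := Λ.toggle_far c (P i) (reg j s)
      have := hd s
      omega
    let G : ZMod 2 × ZMod 2 × ℕ → ZMod 2 := fun q => Λ.walk ψ (P q.2.2) (base q.1 q.2.1) (l q.2.2) +
      E (Λ.mk' (base q.1 q.2.1 + sumL (l q.2.2)) (P q.2.2))
    have tog : ∀ i ≤ t, ∀ c c', c' = c + single (P i) 1 → Q i (c + sumL (l i)) →
        Q i (c' + sumL (l i)) → ψ (Λ.mk' c (P i)) (Λ.mk' c' (P i)) =
          (Λ.walk ψ (P i) c (l i) + E (Λ.mk' (c + sumL (l i)) (P i))) +
          (Λ.walk ψ (P i) c' (l i) + E (Λ.mk' (c' + sumL (l i)) (P i))) := by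
      intro i hi c c' e q1 q2
      have a1 := Λ.walk_perm hψ hr (P i) (List.perm_append_singleton (P i) (l i)).symm
        (fun x hx => by
          rcases List.mem_cons.1 hx with rfl | hx
          · simp [mX.refl]
          · obtain ⟨s, -, rfl⟩ := hl i x hx
            exact h0 i hi s) c
      rw [Λ.walk_append] at a1
      simp only [IsLamp.walk, add_zero] at a1
      have e' : c + sumL (l i) + single (P i) 1 = c' + sumL (l i) := by rw [e, add_right_comm]
      have a2 := hE _ (QJ i hi _ q1 i hi) _ (QJ i hi _ q2 i hi)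
        (by rw [← e']; exact (Λ.toggle _ _).trans (by omega))
      rw [← e, e', a2] at a1
      have := z2_add_self (Λ.walk ψ (P i) c' (l i))
      linear_combination a1 - this
    have key : ∀ j, ψ (F (idxA t j)) (F (idxB t j)) = G (idxA t j) + G (idxB t j) := by
      rintro (⟨u, v, ⟨i, hi⟩⟩ | v | u)
      · simp only [F, G, idxA, idxB]
        have hd : ∀ x ∈ l i ++ l (i + 1), mX.d (P i) x ≤ δ ∧ mX.d (P (i + 1)) x ≤ δ := by
          intro x hx
          rcases List.mem_append.1 hx with hx | hx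
          · obtain ⟨s, -, rfl⟩ := hl _ x hx
            exact ⟨h0 i hi.le s, h2 i hi s⟩
          · obtain ⟨s, -, rfl⟩ := hl _ x hx
            exact ⟨h1 i hi s, h0 (i + 1) hi s⟩
        have a1 := Λ.walk_move hψ hr (hP i hi) (l i ++ l (i + 1)) hd (base u v)
        rw [Λ.walk_perm hψ hr (P (i + 1)) (List.perm_append_comm) fun x hx => (hd x hx).2,
          Λ.walk_append, Λ.walk_append, sumL_append, ← add_assoc (base u v)] at a1
        obtain ⟨q1, a2⟩ := ex i hi.le (i + 1) hi (by omega) (h1 i hi) _ (Qb u v i hi.le)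
        obtain ⟨-, a3⟩ := ex (i + 1) hi i hi.le (by omega) (h2 i hi) _ (Qb u v (i + 1) hi)
        have a4 := hE _ (QJ i hi.le _ q1 i hi.le) _ (QJ i hi.le _ q1 (i + 1) hi)
          (((Λ.move _ _ _).trans (hP i hi)).trans (by omega))
        rw [add_right_comm (base u v) (sumL (l (i + 1)))] at a3
        rw [a2, a3, a4] at a1
        have h2 : (2 : ZMod 2) = 0 := rfl
        linear_combination a1 + (E (Λ.mk' (base u v + sumL (l i) + sumL (l (i + 1))) (P i)) -
          Λ.walk ψ (P (i + 1)) (base u v) (l (i + 1)) -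
          E (Λ.mk' (base u v + sumL (l (i + 1))) (P (i + 1)))) * h2
      · exact tog 0 (Nat.zero_le _) _ _ (t0 v) (Qb 0 v 0 (Nat.zero_le _)) (Qb 1 v 0 (Nat.zero_le _))
      · exact tog t le_rfl _ _ (tt u) (Qb u 0 t le_rfl) (Qb u 1 t le_rfl)
    rw [Finset.sum_congr rfl fun j _ => key j]
    exact idx_cycle t G

end Pool.Agent.P.MP_c4d261_al
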