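import Mathlib

/-! Word metrics, quasi-isometry of finitely generated groups, lamplighter groups. -/

set_option autoImplicit false

namespace Pool.Agent.P.MP_c4d261_al

/-- The word length of `g` with respect to `S`: the least length of a word in the elements of `S`
and their inverses whose product is `g`. -/
noncomputable def wordLength {G : Type} [Group G] (S : Finset G) (g : G) : ℕ :=
  sInf {n | ∃ l : List G, l.length = n ∧ (∀ x ∈ l, x ∈ S ∨ x⁻¹ ∈ S) ∧ l.prod = g}

/-- `G` and `G'` are quasi-isometric: for some finite generating sets `S`, `S'` there is a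
quasi-isometry between the word metrics `d(x, y) = |x⁻¹ y|`. -/
def QuasiIsometric (G G' : Type) [Group G] [Group G'] : Prop :=
  ∃ (S : Finset G) (S' : Finset G'),
    Subgroup.closure (S : Set G) = ⊤ ∧ Subgroup.closure (S' : Set G') = ⊤ ∧
    ∃ (f : G → G') (K C : ℝ), 1 ≤ K ∧ 0 ≤ C ∧
      (∀ x y, (wordLength S (x⁻¹ * y) : ℝ) / K - C ≤ wordLength S' ((f x)⁻¹ * f y) ∧
        (wordLength S' ((f x)⁻¹ * f y) : ℝ) ≤ K * wordLength S (x⁻¹ * y) + C) ∧
      ∀ z, ∃ x, (wordLength S' ((f x)⁻¹ * z) : ℝ) ≤ C

/-- The shift action of `H` on the finitely supported functions `H → ℤ/2`: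
`(h • c) (h x) = c x`. -/
noncomputable def shift (H : Type) [Group H] : H →* MulAut (Multiplicative (H →₀ ZMod 2)) where
  toFun h := AddEquiv.toMultiplicative (Finsupp.domCongr (Equiv.mulLeft h))
  map_one' := by ext c x; simp; rfl
  map_mul' g h := by ext c x; simp; rfl

/-- The restricted wreath product `ℤ/2 ≀ H = (⨁_H ℤ/2) ⋊ H`. -/
def Lamp (H : Type) [Group H] : Type :=
  Multiplicative (H →₀ ZMod 2) ⋊[shift H] H

/-- The group structure of the semidirect product. -/
noncomputable instance lampGroup (H : Type) [Group H] : Group (Lamp H) :=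
  SemidirectProduct.instGroup

/-- The iterated wreath product `ℤ/2 ≀ (ℤ/2 ≀ ( ⋯ ≀ H))` with `n` factors `ℤ/2`. -/
noncomputable def iterLamp (H : GrpCat.{0}) : ℕ → GrpCat.{0}
  | 0 => H
  | n + 1 => GrpCat.of (Lamp (iterLamp H n))

end Pool.Agent.P.MP_c4d261_al
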