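import Pool.Agent.P.MP_c4d261_al.Word
import Pool.Agent.P.MP_c4d261_al.Base

/-! Iterated lamplighter groups with different numbers of factors are not quasi-isometric. -/

set_option autoImplicit false

namespace Pool.Agent.P.MP_c4d261_al

/-- Tower of exponentials. -/
def tw (n w : ℕ) : ℕ := (fun x => 2 ^ x)^[n] w

/-- The upper bound for the size of the localised support. -/
def FF : ℕ → ℕ → ℕ
  | 0, w => w
  | m + 1, w => 2 ^ FF m w * FF m w

theorem tw_succ (n w : ℕ) : tw (n + 1) w = tw n (2 ^ w) := rfl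

theorem tw_succ' (n w : ℕ) : tw (n + 1) w = 2 ^ tw n w := Function.iterate_succ_apply' _ _ _

theorem tw_strictMono (n : ℕ) : StrictMono (tw n) :=
  (pow_right_strictMono₀ (by norm_num : (1 : ℕ) < 2)).iterate n

theorem tw_mono_left (w : ℕ) : Monotone fun n => tw n w :=
  monotone_nat_of_le_succ fun n => by rw [tw_succ']; exact Nat.lt_two_pow_self.le

theorem FF_pos (m : ℕ) {w : ℕ} (h : 1 ≤ w) : 1 ≤ FF m w := by
  induction m with
  | zero => exact h
  | succ m ih => exact Nat.mul_pos (Nat.two_pow_pos _) ih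

theorem FF_le (m : ℕ) : ∀ β, ∃ A, ∀ w, 1 ≤ w → β * FF m w ≤ tw m (A * w) := by
  induction m with
  | zero => exact fun β => ⟨β, fun w _ => le_rfl⟩
  | succ m ih =>
    intro β
    obtain ⟨A, hA⟩ := ih (β + 2)
    refine ⟨A, fun w hw => ?_⟩
    rw [tw_succ']
    refine le_trans ?_ (Nat.pow_le_pow_right (by norm_num) (hA w hw))
    have h1 := FF_pos m hw
    calc β * FF (m + 1) w = β * (2 ^ FF m w * FF m w) := rfl
      _ ≤ 2 ^ β * (2 ^ FF m w * 2 ^ FF m w) :=
        Nat.mul_le_mul Nat.lt_two_pow_self.le (Nat.mul_le_mul_left _ Nat.lt_two_pow_self.le)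
      _ = 2 ^ (β + 2 * FF m w) := by ring
      _ ≤ 2 ^ ((β + 2) * FF m w) := Nat.pow_le_pow_right (by norm_num) (by nlinarith)

theorem growth_contra (v a : ℕ → ℕ) (M A C : ℕ) (h1 : ∀ n, n + 1 ≤ v n) (h2 : ∀ n, v n ≤ M ^ n)
    (hM : 1 ≤ M) (ha : ∀ ρ, a ρ ≤ C * (ρ + 1)) (h : ∀ ρ, 2 ^ (v ρ - 1) ≤ A * v (a ρ)) : False := by
  have b1 : ∀ ρ, v ρ ≤ (A + 1 + M * C) * (ρ + 1) := fun ρ => by
    have c1 : A * v (a ρ) ≤ 2 ^ (A + M * (C * (ρ + 1))) := by
      rw [pow_add, pow_mul]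
      exact Nat.mul_le_mul Nat.lt_two_pow_self.le ((h2 _).trans ((Nat.pow_le_pow_right hM
        (ha ρ)).trans (Nat.pow_le_pow_left Nat.lt_two_pow_self.le _)))
    have c2 := (Nat.pow_le_pow_iff_right (by norm_num)).1 ((h ρ).trans c1)
    have : v ρ ≤ A + M * (C * (ρ + 1)) + 1 := by omega
    nlinarith [Nat.zero_le (A * ρ)]
  obtain ⟨K, hK⟩ : ∃ K, ∀ ρ, 2 ^ ρ ≤ K * (ρ + 1) := by
    refine ⟨A * ((A + 1 + M * C) * (C + 1)), fun ρ => ?_⟩
    have c1 : 2 ^ ρ ≤ 2 ^ (v ρ - 1) :=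
      Nat.pow_le_pow_right (by norm_num) (by have := h1 ρ; omega)
    have c2 : a ρ + 1 ≤ (C + 1) * (ρ + 1) := by have := ha ρ; nlinarith
    calc 2 ^ ρ ≤ A * v (a ρ) := c1.trans (h ρ)
      _ ≤ A * ((A + 1 + M * C) * ((C + 1) * (ρ + 1))) :=
        Nat.mul_le_mul_left _ ((b1 _).trans (Nat.mul_le_mul_left _ c2))
      _ = _ := by ring
  have c1 := hK (2 * K * 2)
  have c2 : 2 * K + 1 ≤ 2 ^ (2 * K) := Nat.lt_two_pow_self
  rw [pow_mul] at c1
  have c3 := Nat.pow_le_pow_left c2 2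
  nlinarith

section
variable (H : GrpCat.{0}) {S : Finset H} (hS : Subgroup.closure (S : Set H) = ⊤)
  (B : ℕ → Finset H) (hB : ∀ n x, x ∈ B n ↔ (wm S hS).d 1 x ≤ n)
include hB

theorem tower_iter (m : ℕ) : ∃ (T : Finset (iterLamp H m))
    (hT : Subgroup.closure (T : Set (iterLamp H m)) = ⊤),
      Nonempty (Tower (wm S hS) 1 (wm T hT) 1 fun n => FF m (B n).card) := by
  induction m with
  | zero => exact ⟨S, hS, Tower.base _ _ B hB⟩
  | succ m ih =>
    obtain ⟨T, hT, ⟨W⟩⟩ := ih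
    obtain ⟨T', hT', Λ, e⟩ := lamp_isLamp hT
    have := W.lift Λ
    rw [e] at this
    exact ⟨T', hT', this⟩

theorem low_iter [Infinite H] (n : ℕ) : ∃ (T : Finset (iterLamp H (n + 1)))
    (hT : Subgroup.closure (T : Set (iterLamp H (n + 1))) = ⊤), ∀ ρ t R, 2 * R < t * (2 * ρ + 1) →
      Nonempty (LowData (wm T hT) 1 (2 * (3 * ρ + 1) + 1) (12 * ρ + 8) R
        (3 * (t * (2 * ρ + 1)) + 2) (tw (n + 1) ((B ρ).card - 1))) := by
  classical
  induction n with
  | zero =>
    obtain ⟨T', hT', Λ, e⟩ := lamp_isLamp hS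
    refine ⟨T', hT', fun ρ t R hR => ?_⟩
    obtain ⟨γ, g0, hγ⟩ := (wm_deg hS).geodesic 1 (t * (2 * ρ + 1))
    let P : ℕ → H := fun i => γ (i * (2 * ρ + 1))
    have hP : ∀ i j, i ≤ j → j ≤ t → (wm S hS).d (P i) (P j) = (j - i) * (2 * ρ + 1) := by
      intro i j h1 h2
      rw [Nat.sub_mul]
      exact hγ _ _ (Nat.mul_le_mul_right _ h1) (Nat.mul_le_mul_right _ h2)
    have hP1 : ∀ i < t, (wm S hS).d (P i) (P (i + 1)) = 2 * ρ + 1 := fun i hi => by
      rw [hP i (i + 1) (by omega) hi]; simp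
    have hsep : ∀ i ≤ t, ∀ j ≤ t, (wm S hS).d (P i) (P j) ≤ 2 * ρ → i = j := by
      intro i hi j hj h
      by_contra hne
      rcases lt_or_gt_of_ne hne with h' | h'
      · rw [hP i j h'.le hj] at h
        have := Nat.mul_le_mul_right (2 * ρ + 1) (show 1 ≤ j - i by omega)
        omega
      · rw [NMetric.symm, hP j i h'.le hi] at h
        have := Nat.mul_le_mul_right (2 * ρ + 1) (show 1 ≤ i - j by omega)
        omega
    let reg : ℕ → ((B ρ).erase 1) → H := fun i s => P i * s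
    have hreg : ∀ i s, (wm S hS).d (P i) (reg i s) ≤ ρ := fun i s => by
      simpa [wm_d, reg] using (hB ρ s).1 (Finset.mem_of_mem_erase s.2)
    have hne : ∀ i ≤ t, ∀ j ≤ t, ∀ s, reg i s ≠ P j := by
      intro i hi j hj s h
      have h1 := hreg i s
      rw [h] at h1
      obtain rfl := hsep i hi j hj (by omega)
      exact Finset.ne_of_mem_erase s.2 (by simpa [reg] using h)
    have := base_low Λ P reg t (3 * ρ + 1) (12 * ρ + 8) R (t * (2 * ρ + 1)) (by omega)
      (fun i hi => by rw [hP1 i hi]; omega) (fun i _ s => by have := hreg i s; omega)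
      (fun i hi s => by
        have a1 := hreg (i + 1) s
        have a2 := hP1 i hi
        have a3 := (wm S hS).tri (P i) (P (i + 1)) (reg (i + 1) s)
        omega)
      (fun i hi s => by
        have a1 := hreg i s
        have a2 := hP1 i hi
        have a3 := (wm S hS).tri (P (i + 1)) (P i) (reg i s)
        rw [NMetric.symm] at a2
        omega)
      (fun i hi j hj s s' h => by
        have a1 := hreg i s
        have a2 := hreg j s'
        have a3 := (wm S hS).tri (P i) (reg i s) (P j)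
        rw [← h, NMetric.symm] at a2
        obtain rfl := hsep i hi j hj (by omega)
        exact ⟨rfl, Subtype.ext (mul_left_cancel h)⟩)
      (fun i hi s => ⟨hne i hi 0 (Nat.zero_le _) s, hne i hi t le_rfl s⟩)
      (by rw [hP 0 t (Nat.zero_le _) le_rfl]; simpa using hR)
      (fun i hi => by
        rw [hP 0 i (Nat.zero_le _) hi]
        exact Nat.mul_le_mul_right _ (by omega))
    have e1 : P 0 = 1 := by simp [P, g0]
    rw [e1, e, Fintype.card_coe, Finset.card_erase_of_mem ((hB ρ 1).2 (by simp [NMetric.refl]))]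
      at this
    exact this
  | succ n ih =>
    obtain ⟨T, hT, h⟩ := ih
    obtain ⟨T', hT', Λ, e⟩ := lamp_isLamp hT
    refine ⟨T', hT', fun ρ t R hR => ?_⟩
    obtain ⟨D⟩ := h ρ t R hR
    have := D.lift Λ (by omega)
    rw [e, ← tw_succ'] at this
    exact this

end

theorem not_coarse (H : GrpCat.{0}) [Infinite H] [Group.IsFinitelyPresented H] {m n : ℕ}
    (hmn : m ≤ n) (h : ∀ (T : Finset (iterLamp H (n + 1))) hT (T' : Finset (iterLamp H m)) hT',
      Coarse (wm T hT) (wm T' hT')) : False := by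
  classical
  obtain ⟨S, hS, r₀, hex⟩ := exact_of_fp H
  choose B hB1 hB using (wm_deg hS).ball 1
  obtain ⟨T', hT', ⟨W⟩⟩ := tower_iter H hS B hB m
  obtain ⟨T, hT, hD⟩ := low_iter H hS B hB n
  obtain ⟨f, g, l, β, hf, hg, hgf, ho, hβ⟩ := (h T hT T' hT').data (wm_deg hT) 1 1
  obtain ⟨A, hA⟩ := FF_le m β
  have hv : ∀ k, k + 1 ≤ (B k).card := fun k => by
    obtain ⟨γ, g0, hγ⟩ := (wm_deg hS).geodesic 1 k
    rw [← Finset.card_range (k + 1)]
    refine Finset.card_le_card_of_injOn γ (fun i hi => ?_) fun i hi j hj e => ?_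
    · have hi : i < k + 1 := by simpa using hi
      have := hγ 0 i (Nat.zero_le _) (by omega)
      rw [g0] at this
      exact (hB k _).2 (by omega)
    · have hi : i < k + 1 := by simpa using hi
      have hj : j < k + 1 := by simpa using hj
      rcases le_total i j with h' | h'
      · have := hγ i j h' (by omega)
        rw [e, NMetric.refl] at this
        omega
      · have := hγ j i h' (by omega)
        rw [e, NMetric.refl] at this
        omega
  obtain ⟨c, hc⟩ : ∃ c, ∀ ρ,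
      l * (l * (12 * ρ + 8) + l + r₀) + l + (2 * (3 * ρ + 1) + 1) + 2 * l ≤ c * (ρ + 1) :=
    ⟨l * (l * 12 + l + r₀) + 3 * l + 6, fun ρ => by
      nlinarith [Nat.zero_le (l * l), Nat.zero_le (l * l * ρ), Nat.zero_le (l * r₀ * ρ),
        Nat.zero_le (l * ρ)]⟩
  refine growth_contra (fun k => (B k).card) (fun ρ =>
    l * (3 * ((2 * c + 1) * (2 * ρ + 1)) + 2) + 2 * l + 3 * (l * (12 * ρ + 8) + l))
    (2 * S.card + 1) A (l * (6 * (2 * c + 1) + 2) + 2 * l + 39 * l) hv hB1 (by omega)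
    (fun ρ => by nlinarith [Nat.zero_le (l * c), Nat.zero_le (l * ρ)]) fun ρ => ?_
  obtain ⟨D⟩ := hD ρ (2 * c + 1) (c * (ρ + 1)) (by nlinarith [Nat.zero_le (c * ρ)])
  have h1 := hc ρ
  have := compare W D f g l β (l * (12 * ρ + 8) + l + r₀) hf hg hgf ho hβ (hex _ (by omega))
    (by omega) (by omega) (by omega) (by omega)
  have h2 := this.trans (hA _ (le_trans (by omega) (hv _)))
  rw [tw_succ] at h2
  exact (tw_strictMono m).le_iff_le.1 ((tw_mono_left _ hmn).trans h2)

theorem not_qi (H : GrpCat.{0}) [Infinite H] [Group.IsFinitelyPresented H] {m n : ℕ}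
    (hmn : m ≠ n) : ¬ QuasiIsometric (iterLamp H m) (iterLamp H n) := by
  intro h
  rcases lt_or_gt_of_ne hmn with h' | h'
  · obtain ⟨k, rfl⟩ : ∃ k, n = k + 1 := ⟨n - 1, by omega⟩
    exact not_coarse H (m := m) (n := k) (by omega) fun T hT T' hT' => (h.coarse hT' hT).symm
  · obtain ⟨k, rfl⟩ : ∃ k, m = k + 1 := ⟨m - 1, by omega⟩
    exact not_coarse H (m := n) (n := k) (by omega) fun T hT T' hT' => h.coarse hT hT'

end Pool.Agent.P.MP_c4d261_al
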