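import Pool.Agent.P.MP_c4d261_al.Low

/-!
Upper bound: in an iterated lamplighter space over a coarsely simply connected base, a cocycle can
be localised to a finite set of controlled size.  Comparison with the lower bound data through
a quasi-isometry.
-/

set_option autoImplicit false

open Finsupp

namespace Pool.Agent.P.MP_c4d261_al

variable {H X Y L : Type}

/-- The structure of an iterated lamplighter space over `H` used for localising cocycles. -/
structure Tower (mH : NMetric H) (e : H) (m : NMetric Y) (o : Y) (F : ℕ → ℕ) where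
  p : Y → H
  p_o : p o = e
  p_lip : ∀ x y, mH.d (p x) (p y) ≤ m.d x y
  lf : Y → H → Y
  lf_p : ∀ y, lf y (p y) = y
  lf_lip : ∀ y h h', m.d (lf y h) (lf y h') ≤ mH.d h h'
  π : ℕ → Y → Y
  π_lip : ∀ n x y, m.d (π n x) (π n y) ≤ m.d x y
  π_fix : ∀ n x, m.d o x ≤ n → π n x = x
  π_p : ∀ n x, p (π n x) = p x
  π_lf : ∀ n x y, n + m.d x y < mH.d e (p x) → lf (π n x) = lf (π n y)
  Hull : ℕ → Y → Prop
  hull_ball : ∀ n x, m.d o x ≤ n → Hull n x
  hull_near : ∀ n x y, Hull n x → mH.d e (p x) + m.d x y ≤ n → Hull n y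
  T : ℕ → Finset Y
  mem_T : ∀ n x, x ∈ T n ↔ Hull n x ∧ mH.d e (p x) ≤ n
  card_T : ∀ n, (T n).card ≤ F n

theorem Tower.base (mH : NMetric H) (e : H) (B : ℕ → Finset H)
    (hB : ∀ n x, x ∈ B n ↔ mH.d e x ≤ n) : Nonempty (Tower mH e mH e fun n => (B n).card) :=
  ⟨{ p := id
     p_o := rfl
     p_lip := fun _ _ => le_rfl
     lf := fun _ h => h
     lf_p := fun _ => rfl
     lf_lip := fun _ _ _ => le_rfl
     π := fun _ => id
     π_lip := fun _ _ _ => le_rfl
     π_fix := fun _ _ _ => rfl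
     π_p := fun _ _ => rfl
     π_lf := fun _ _ _ _ => rfl
     Hull := fun _ _ => True
     hull_ball := fun _ _ _ => trivial
     hull_near := fun _ _ _ _ _ => trivial
     T := B
     mem_T := fun n x => by simp [hB]
     card_T := fun _ => le_rfl }⟩

theorem Tower.lift {mH : NMetric H} {e : H} {m : NMetric Y} {o : Y} {F : ℕ → ℕ}
    (T : Tower mH e m o F) {mL : NMetric L} (Λ : IsLamp m mL) :
    Nonempty (Tower mH e mL (Λ.mk' 0 o) fun n => 2 ^ F n * F n) := by
  classical
  choose B hB hc using fun n => Λ.exists_box (T.T n) (T.T n)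
  have hsupp : ∀ y, ∀ z ∈ (Λ.col y).support, m.d o z ≤ mL.d (Λ.mk' 0 o) y := fun y z hz => by
    have := Λ.near_of_ne (Λ.mk' 0 o) y z (by simpa [Λ.col_mk] using hz)
    rwa [Λ.pos_mk] at this
  have hpos : ∀ y, m.d o (Λ.pos y) ≤ mL.d (Λ.mk' 0 o) y := fun y => by
    have := Λ.pos_lip (Λ.mk' 0 o) y
    rwa [Λ.pos_mk] at this
  have hp : ∀ z, mH.d e (T.p z) ≤ m.d o z := fun z => by
    have := T.p_lip o z
    rwa [T.p_o] at this
  let κ : ℕ → (Y →₀ ZMod 2) → Y →₀ ZMod 2 := fun n c =>
    (mapDomain (T.π n) c).filter fun z => m.d o z ≤ n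
  have κadd : ∀ n c c', κ n (c + c') = κ n c + κ n c' := fun n c c' => by
    simp only [κ, mapDomain_add, filter_add]
  refine ⟨{ p := fun y => T.p (Λ.pos y)
            p_o := by rw [Λ.pos_mk, T.p_o]
            p_lip := fun x y => (T.p_lip _ _).trans (Λ.pos_lip x y)
            lf := fun y h => Λ.mk' (Λ.col y) (T.lf (Λ.pos y) h)
            lf_p := fun y => by rw [T.lf_p, Λ.mk_col_pos]
            lf_lip := fun y h h' => (Λ.move _ _ _).trans (T.lf_lip _ _ _)
            π := fun n y => Λ.mk' (κ n (Λ.col y)) (T.π n (Λ.pos y))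
            π_lip := ?_
            π_fix := ?_
            π_p := fun n y => by rw [Λ.pos_mk, T.π_p]
            π_lf := ?_
            Hull := fun n y => T.Hull n (Λ.pos y) ∧ (Λ.col y).support ⊆ T.T n
            hull_ball := ?_
            hull_near := ?_
            T := B
            mem_T := fun n y => by rw [hB, T.mem_T]; tauto
            card_T := fun n => (hc n).trans (Nat.mul_le_mul
              (Nat.pow_le_pow_right (by norm_num) (T.card_T n)) (T.card_T n)) }⟩
  · intro n x y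
    have := mL.lip mL (fun y => Λ.mk' (κ n (Λ.col y)) (T.π n (Λ.pos y))) 1 (fun x y h => by
      rcases Λ.adj x y h with h | h
      · rw [h.1]
        exact (Λ.move _ _ _).trans ((T.π_lip _ _ _).trans h.2)
      · rw [h.1, h.2, κadd]
        by_cases hz : m.d o (T.π n (Λ.pos x)) ≤ n
        · have : κ n (single (Λ.pos x) 1) = single (T.π n (Λ.pos x)) 1 := by
            simp only [κ, mapDomain_single]
            exact filter_single_of_pos _ hz
          rw [this]
          exact Λ.toggle _ _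
        · have : κ n (single (Λ.pos x) 1) = 0 := by
            simp only [κ, mapDomain_single]
            exact filter_single_of_neg _ hz
          rw [this, add_zero, mL.refl]
          omega) x y
    omega
  · intro n y hy
    have h1 : mapDomain (T.π n) (Λ.col y) = Λ.col y := by
      rw [mapDomain_congr (g := id) fun z hz => T.π_fix n z ((hsupp y z hz).trans hy), mapDomain_id]
    have h2 : κ n (Λ.col y) = Λ.col y := by
      simp only [κ, h1]
      exact (filter_eq_self_iff _ _).2 fun z hz => (hsupp y z (by simpa using hz)).trans hy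
    rw [h2, T.π_fix n _ ((hpos y).trans hy), Λ.mk_col_pos]
  · intro n x y h
    have h1 := Λ.pos_lip x y
    have h2 : κ n (Λ.col y + Λ.col x) = 0 := by
      refine (filter_eq_zero_iff _ _).2 fun w hw => ?_
      by_contra hw'
      obtain ⟨z, hz, rfl⟩ := Finset.mem_image.1 (mapDomain_support (Finsupp.mem_support_iff.2 hw'))
      have a1 := Λ.near_of_ne x y z fun e' => by
        rw [Finsupp.mem_support_iff, Finsupp.add_apply, e', z2_add_self] at hz
        exact hz rfl
      have a2 := hp (T.π n z)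
      rw [T.π_p] at a2
      have a3 := T.p_lip z (Λ.pos x)
      rw [m.symm z] at a3
      have a4 := mH.tri e (T.p z) (T.p (Λ.pos x))
      omega
    have h3 : κ n (Λ.col y) = κ n (Λ.col x) := by
      have : Λ.col y = Λ.col y + Λ.col x + Λ.col x := by
        rw [add_assoc, col_add_self, add_zero]
      rw [this, κadd, h2, zero_add]
    funext h'
    simp only [Λ.col_mk, Λ.pos_mk]
    rw [h3, T.π_lf n (Λ.pos x) (Λ.pos y) (by omega)]
  · intro n y hy
    refine ⟨T.hull_ball _ _ ((hpos y).trans hy), fun z hz => (T.mem_T _ _).2 ?_⟩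
    have := (hsupp y z hz).trans hy
    exact ⟨T.hull_ball _ _ this, (hp z).trans this⟩
  · intro n x y hx h
    have h1 := Λ.pos_lip x y
    refine ⟨T.hull_near _ _ _ hx.1 (by omega), fun z hz => ?_⟩
    by_cases e' : Λ.col y z = Λ.col x z
    · exact hx.2 (by rw [Finsupp.mem_support_iff] at hz ⊢; rwa [← e'])
    · have a1 := Λ.near_of_ne x y z e'
      have a2 := T.p_lip (Λ.pos x) z
      have a3 := mH.tri e (T.p (Λ.pos x)) (T.p z)
      exact (T.mem_T _ _).2 ⟨T.hull_near _ _ _ hx.1 (by omega), by omega⟩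

/-- Every cocycle at scale `R` is a coboundary. -/
def Exact (m : NMetric X) (R : ℕ) : Prop :=
  ∀ θ, Cocycle m R θ → ∃ E : X → ZMod 2, ∀ x y, m.d x y ≤ R → θ x y = E x + E y

theorem Tower.localise {mH : NMetric H} {e : H} {m : NMetric Y} {o : Y} {F : ℕ → ℕ}
    (T : Tower mH e m o F) {R r : ℕ} (n : ℕ) (hex : Exact mH R) (hr : r ≤ R)
    {φ : Y → Y → ZMod 2} (hφ : Cocycle m R φ) :
    ∃ (θ : Y → Y → ZMod 2) (U : Y → ZMod 2), Cocycle m r θ ∧
      (∀ x y, m.d o x ≤ n → m.d o y ≤ n → θ x y = φ x y + (U x + U y)) ∧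
      ∀ x y, m.d x y ≤ r → x ∉ T.T (n + 3 * r) → θ x y = 0 := by
  classical
  have : ∀ ℓ : H → Y, ∃ E : H → ZMod 2, (∀ h h', m.d (ℓ h) (ℓ h') ≤ mH.d h h') →
      ∀ h h', mH.d h h' ≤ R → φ (ℓ h) (ℓ h') = E h + E h' := fun ℓ => by
    by_cases hl : ∀ h h', m.d (ℓ h) (ℓ h') ≤ mH.d h h'
    · obtain ⟨E, hE⟩ := hex _ (hφ.comp ℓ fun x y h => (hl x y).trans h)
      exact ⟨E, fun _ => hE⟩
    · exact ⟨0, fun h => (hl h).elim⟩
  choose E hE using this
  let U : Y → ZMod 2 := fun y => E (T.lf y) (T.p y)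
  let φ' : Y → Y → ZMod 2 := fun x y => φ (T.π n x) (T.π n y) + (U (T.π n x) + U (T.π n y))
  have c1 : Cocycle m r φ' :=
    (hφ.add_cob U).comp (T.π n) fun x y h => (T.π_lip n x y).trans (h.trans hr)
  have z1 : ∀ x y, m.d x y ≤ r → n + r < mH.d e (T.p x) → φ' x y = 0 := by
    intro x y h1 h2
    have a1 := T.π_lf n x y (by omega)
    have a2 := hE (T.lf (T.π n x)) (T.lf_lip _) (T.p (T.π n x)) (T.p (T.π n y))
      ((T.p_lip _ _).trans ((T.π_lip n x y).trans (h1.trans hr)))
    rw [T.lf_p] at a2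
    rw [a1, T.lf_p] at a2
    simp only [φ', U, a1, a2, z2_add_self]
  refine ⟨fun x y => if T.Hull (n + 3 * r) x then φ' x y else 0, U, ?_, ?_, ?_⟩
  · intro x y z h1 h2 h3
    beta_reduce
    by_cases hc : n + r < mH.d e (T.p x) ∧ n + r < mH.d e (T.p y)
    · rw [z1 x y h1 hc.1, z1 y z h2 hc.2, z1 x z h3 hc.1]
      simp
    · have a1 := T.p_lip x y
      have a2 := mH.tri e (T.p x) (T.p y)
      have a3 := mH.tri e (T.p y) (T.p x)
      rw [mH.symm (T.p y)] at a3
      have a4 := m.symm x y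
      by_cases hx : T.Hull (n + 3 * r) x
      · rw [if_pos hx, if_pos hx, if_pos (T.hull_near _ _ _ hx (by omega))]
        exact c1 x y z h1 h2 h3
      · rw [if_neg hx, if_neg hx, if_neg fun hy => hx (T.hull_near _ _ _ hy (by omega))]
        simp
  · intro x y hx hy
    beta_reduce
    rw [if_pos (T.hull_ball _ _ (by omega))]
    simp only [φ', T.π_fix n x hx, T.π_fix n y hy]
  · intro x y h1 h2
    beta_reduce
    split_ifs with hx
    · refine z1 x y h1 ?_
      by_contra h3
      exact h2 ((T.mem_T _ _).2 ⟨hx, by omega⟩)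
    · rfl

theorem compare {mH : NMetric H} {e : H} {mY : NMetric Y} {oY : Y} {F : ℕ → ℕ}
    (T : Tower mH e mY oY F) {mX : NMetric X} {oX : X} {τ r R n₀ N : ℕ}
    (D : LowData mX oX τ r R n₀ N) (f : X → Y) (g : Y → X) (l β R' : ℕ)
    (hf : ∀ x y, mY.d (f x) (f y) ≤ l * mX.d x y + l)
    (hg : ∀ x y, mX.d (g x) (g y) ≤ l * mY.d x y + l)
    (hgf : ∀ x, mX.d x (g (f x)) ≤ l) (ho : mY.d oY (f oX) ≤ l)
    (hβ : ∀ (S : Finset X) y, (∀ x ∈ S, f x = y) → S.card ≤ β)
    (hex : Exact mH R') (h1 : l * r + l ≤ R') (h2 : l * R' + l ≤ R) (h3 : τ + 2 * l ≤ R)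
    (h4 : τ ≤ r) : N ≤ β * F (l * n₀ + 2 * l + 3 * (l * r + l)) := by
  classical
  obtain ⟨φ, hφ, hd⟩ := D.det
  have lf : ∀ x y k, mX.d x y ≤ k → mY.d (f x) (f y) ≤ l * k + l := fun x y k h =>
    (hf x y).trans (Nat.add_le_add_right (Nat.mul_le_mul_left l h) l)
  obtain ⟨θ, U, c1, c2, c3⟩ := T.localise (l * n₀ + 2 * l) hex h1
    (hφ.comp (m' := mY) (r' := R') g fun x y h => (hg x y).trans
      ((Nat.add_le_add_right (Nat.mul_le_mul_left l h) l).trans h2))
  have hd' : ∑ j, θ (f (D.a j)) (f (D.b j)) ≠ 0 := by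
    rw [D.cyc.sum_eq (t := fun j => φ (D.a j) (D.b j)) (fun x => φ x (g (f x)) + U (f x))
      fun j => ?_]
    · exact hd
    have b1 := lf _ _ _ (D.ball j).1
    have b2 := lf _ _ _ (D.ball j).2
    have b3 := mY.tri oY (f oX) (f (D.a j))
    have b4 := mY.tri oY (f oX) (f (D.b j))
    rw [c2 _ _ (by omega) (by omega)]
    have a1 := D.step j
    have a2 := hgf (D.a j)
    have a3 := hgf (D.b j)
    have a4 := mX.tri (D.a j) (D.b j) (g (f (D.b j)))
    have a5 := mX.tri (g (f (D.a j))) (D.a j) (g (f (D.b j)))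
    rw [mX.symm (g (f (D.a j))) (D.a j)] at a5
    have a6 := hφ.square (x := D.a j) (y := g (f (D.a j))) (z := D.b j) (w := g (f (D.b j)))
      (by omega) (by omega) (by omega) (by omega) (by omega)
    have := z2_add_self (φ (D.a j) (g (f (D.a j))))
    linear_combination a6 - this
  have : ∀ i, ∃ x ∈ D.J i, f x ∈ T.T (l * n₀ + 2 * l + 3 * (l * r + l)) := fun i => by
    by_contra hc
    push Not at hc
    refine hd' (D.low i (fun x y => θ (f x) (f y)) 0 (c1.comp f fun x y h => lf _ _ _ h)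
      fun x hx y _ h => ?_)
    simpa using c3 _ _ (lf _ _ _ (h.trans h4)) (hc x hx)
  choose x hx1 hx2 using this
  have hinj : Function.Injective x := fun i j h => by
    rw [← D.lab i _ (hx1 i), ← D.lab j _ (hx1 j), h]
  refine D.card.trans ((Finset.card_le_mul_card_image_of_maps_to (s := Finset.univ)
    (f := fun i => f (x i)) (fun i _ => hx2 i) β fun y _ => ?_).trans
    (Nat.mul_le_mul_left _ (T.card_T _)))
  rw [← Finset.card_image_of_injective _ hinj]
  refine hβ _ y fun z hz => ?_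
  obtain ⟨i, hi, rfl⟩ := Finset.mem_image.1 hz
  exact (Finset.mem_filter.1 hi).2

end Pool.Agent.P.MP_c4d261_al
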