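import Pool.Agent.P.MP_c4d261_al.Metric

/-! Balls, geodesics and coarse equivalence for graph metrics. -/

set_option autoImplicit false

namespace Pool.Agent.P.MP_c4d261_al

variable {X Y Z : Type}

/-- Every vertex has at most `M` vertices within distance one. -/
def Deg (m : NMetric X) (M : ℕ) : Prop :=
  ∀ x, ∃ N : Finset X, N.card ≤ M ∧ ∀ y, m.d x y ≤ 1 → y ∈ N

theorem Deg.ball {m : NMetric X} {M : ℕ} (h : Deg m M) (o : X) (n : ℕ) :
    ∃ B : Finset X, B.card ≤ M ^ n ∧ ∀ y, y ∈ B ↔ m.d o y ≤ n := by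
  classical
  choose N hN1 hN2 using h
  induction n with
  | zero =>
    refine ⟨{o}, by simp, fun y => ?_⟩
    rw [Finset.mem_singleton]
    exact ⟨fun e => by rw [e, m.refl], fun e => (m.eq_of _ _ (by omega)).symm⟩
  | succ n ih =>
    obtain ⟨B, h1, h2⟩ := ih
    refine ⟨(B.biUnion N).filter fun y => m.d o y ≤ n + 1, ?_, fun y => ?_⟩
    · refine (Finset.card_filter_le _ _).trans ((Finset.card_biUnion_le_card_mul _ _ M
        fun x _ => hN1 x).trans ?_)
      rw [pow_succ]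
      exact Nat.mul_le_mul_right _ h1
    · rw [Finset.mem_filter]
      refine ⟨fun h => h.2, fun h => ⟨?_, h⟩⟩
      obtain ⟨z, a1, a2⟩ := m.step o y n h
      exact Finset.mem_biUnion.2 ⟨z, (h2 z).2 a1, hN2 z y a2⟩

theorem NMetric.path (m : NMetric X) (o : X) (n : ℕ) (x : X) (h : m.d o x ≤ n) :
    ∃ γ : ℕ → X, γ 0 = o ∧ γ n = x ∧ ∀ i < n, m.d (γ i) (γ (i + 1)) ≤ 1 := by
  refine m.ind o (P := fun n x => ∃ γ : ℕ → X, γ 0 = o ∧ γ n = x ∧
    ∀ i < n, m.d (γ i) (γ (i + 1)) ≤ 1) ⟨fun _ => o, rfl, rfl, by simp⟩ ?_ n x h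
  rintro n y z - ⟨γ, h1, h2, h3⟩ h4
  refine ⟨fun i => if i ≤ n then γ i else z, by simp [h1], by simp, fun i hi => ?_⟩
  beta_reduce
  rw [if_pos (by omega)]
  split_ifs with h5
  · exact h3 i (by omega)
  · rw [show i = n by omega, h2]; exact h4

theorem Deg.geodesic [Infinite X] {m : NMetric X} {M : ℕ} (h : Deg m M) (o : X) (n : ℕ) :
    ∃ γ : ℕ → X, γ 0 = o ∧ ∀ i j, i ≤ j → j ≤ n → m.d (γ i) (γ j) = j - i := by
  obtain ⟨B, -, hB⟩ := h.ball o n
  obtain ⟨x, hx⟩ := Infinite.exists_notMem_finset B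
  rw [hB] at hx
  obtain ⟨γ, h1, h2, h3⟩ := m.path o _ x le_rfl
  have h4 : ∀ i k, i + k ≤ m.d o x → m.d (γ i) (γ (i + k)) ≤ k := by
    intro i k
    induction k with
    | zero => intro _; simp [m.refl]
    | succ k ih =>
      intro hk
      have a1 := ih (by omega)
      have a2 := h3 (i + k) (by omega)
      have a3 := m.tri (γ i) (γ (i + k)) (γ (i + k + 1))
      rw [← add_assoc]
      omega
  refine ⟨γ, h1, fun i j hij hj => ?_⟩
  have a1 := h4 0 i (by omega)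
  have a2 := h4 i (j - i) (by omega)
  have a3 := h4 j (m.d o x - j) (by omega)
  rw [zero_add, h1] at a1
  rw [show i + (j - i) = j by omega] at a2
  rw [show j + (m.d o x - j) = m.d o x by omega, h2] at a3
  have a4 := m.tri o (γ i) x
  have a5 := m.tri (γ i) (γ j) x
  omega

/-- Coarse equivalence of graph metrics. -/
def Coarse (m : NMetric X) (m' : NMetric Y) : Prop :=
  ∃ (f : X → Y) (g : Y → X) (l : ℕ), (∀ x y, m'.d (f x) (f y) ≤ l * m.d x y + l) ∧
    (∀ x y, m.d (g x) (g y) ≤ l * m'.d x y + l) ∧ (∀ x, m.d x (g (f x)) ≤ l) ∧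
    ∀ y, m'.d y (f (g y)) ≤ l

theorem Coarse.symm {m : NMetric X} {m' : NMetric Y} (h : Coarse m m') : Coarse m' m := by
  obtain ⟨f, g, l, h1, h2, h3, h4⟩ := h
  exact ⟨g, f, l, h2, h1, h4, h3⟩

theorem Coarse.trans {m : NMetric X} {m' : NMetric Y} {m'' : NMetric Z} (h : Coarse m m')
    (h' : Coarse m' m'') : Coarse m m'' := by
  obtain ⟨f, g, l, h1, h2, h3, h4⟩ := h
  obtain ⟨f', g', l', h1', h2', h3', h4'⟩ := h'
  refine ⟨fun x => f' (f x), fun z => g (g' z), l * l' + 2 * l + 2 * l', fun x y => ?_,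
    fun x y => ?_, fun x => ?_, fun z => ?_⟩
  · have a1 := h1' (f x) (f y)
    have a2 := Nat.mul_le_mul_left l' (h1 x y)
    nlinarith [Nat.zero_le (l * m.d x y), Nat.zero_le (l' * m.d x y)]
  · have a1 := h2 (g' x) (g' y)
    have a2 := Nat.mul_le_mul_left l (h2' x y)
    nlinarith [Nat.zero_le (l * m''.d x y), Nat.zero_le (l' * m''.d x y)]
  · have a1 := h3 x
    have a2 := h2 (f x) (g' (f' (f x)))
    have a3 := Nat.mul_le_mul_left l (h3' (f x))
    have a4 := m.tri x (g (f x)) (g (g' (f' (f x))))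
    beta_reduce
    omega
  · have a1 := h4' z
    have a2 := h1' (g' z) (f (g (g' z)))
    have a3 := Nat.mul_le_mul_left l' (h4 (g' z))
    have a4 := m''.tri z (f' (g' z)) (f' (f (g (g' z))))
    rw [mul_comm l' l] at a3
    beta_reduce
    omega

/-- A coarse equivalence with control of base points and fibres. -/
theorem Coarse.data {m : NMetric X} {m' : NMetric Y} (h : Coarse m m') {M : ℕ} (hM : Deg m M)
    (o : X) (o' : Y) : ∃ (f : X → Y) (g : Y → X) (l β : ℕ),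
      (∀ x y, m'.d (f x) (f y) ≤ l * m.d x y + l) ∧ (∀ x y, m.d (g x) (g y) ≤ l * m'.d x y + l) ∧
      (∀ x, m.d x (g (f x)) ≤ l) ∧ m'.d o' (f o) ≤ l ∧
      ∀ (S : Finset X) y, (∀ x ∈ S, f x = y) → S.card ≤ β := by
  obtain ⟨f, g, l, h1, h2, h3, -⟩ := h
  refine ⟨f, g, l + m'.d o' (f o), M ^ l, fun x y => ?_, fun x y => ?_, fun x => ?_, by omega,
    fun S y hS => ?_⟩
  · have := h1 x y
    nlinarith [Nat.zero_le (m'.d o' (f o) * m.d x y)]
  · have := h2 x y
    nlinarith [Nat.zero_le (m'.d o' (f o) * m'.d x y)]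
  · have := h3 x
    omega
  · obtain ⟨B, a1, a2⟩ := hM.ball (g y) l
    refine (Finset.card_le_card fun x hx => (a2 x).2 ?_).trans a1
    rw [m.symm, ← hS x hx]
    exact h3 x

end Pool.Agent.P.MP_c4d261_al
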