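import Pool.Agent.P.MP_c4d261_al.Metric

/-!
Lower bound data: a cycle detected by a cocycle, and many disjoint finite sets on which no
detecting cocycle can be exact.  The data lift from `X` to the lamplighter space over `X`,
the number of sets being exponentiated.
-/

set_option autoImplicit false

open Finsupp

namespace Pool.Agent.P.MP_c4d261_al

variable {X L : Type}

theorem z2_eq_one {a : ZMod 2} (h : a ≠ 0) : a = 1 := by
  revert a; decide

/-- Indicator colouring of a finite set. -/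
noncomputable def ind (A : Finset X) : X →₀ ZMod 2 := ∑ z ∈ A, single z 1

theorem ind_apply [DecidableEq X] (A : Finset X) (x : X) :
    ind A x = if x ∈ A then 1 else 0 := by
  simp [ind, Finsupp.finsetSum_apply, single_apply]

theorem ind_empty : ind (∅ : Finset X) = 0 := by simp [ind]

theorem ind_insert [DecidableEq X] {A : Finset X} {x : X} (h : x ∉ A) :
    ind (insert x A) = ind A + single x 1 := by
  simp [ind, Finset.sum_insert h, add_comm]

theorem support_ind (A : Finset X) : (ind A).support = A := by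
  classical
  ext x; simp [ind_apply]

theorem ind_support (c : X →₀ ZMod 2) : ind c.support = c := by
  classical
  ext x
  rw [ind_apply]
  split_ifs with h
  · exact (z2_eq_one (by simpa using h)).symm
  · exact (by simpa using h : c x = 0).symm

theorem Cocycle.cone {m : NMetric X} {r : ℕ} {θ : X → X → ZMod 2} (h : Cocycle m r θ)
    (w : X) {y z : X} (h1 : m.d w y ≤ r) (h2 : m.d w z ≤ r) (h3 : m.d y z ≤ r) :
    θ y z = θ w y + θ w z := by
  rw [← h w y z h1 h3 h2, ← add_assoc, z2_add_self, zero_add]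

namespace IsLamp

variable {mX : NMetric X} {mL : NMetric L} (Λ : IsLamp mX mL)

theorem exists_box (W V : Finset X) : ∃ B : Finset L,
    (∀ y, y ∈ B ↔ (Λ.col y).support ⊆ W ∧ Λ.pos y ∈ V) ∧ B.card ≤ 2 ^ W.card * V.card := by
  classical
  refine ⟨(W.powerset ×ˢ V).image fun q => Λ.mk' (ind q.1) q.2, fun y => ?_, ?_⟩
  · simp only [Finset.mem_image, Finset.mem_product, Finset.mem_powerset]
    constructor
    · rintro ⟨q, ⟨h1, h2⟩, rfl⟩
      rw [Λ.col_mk, Λ.pos_mk, support_ind]
      exact ⟨h1, h2⟩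
    · rintro ⟨h1, h2⟩
      exact ⟨((Λ.col y).support, Λ.pos y), ⟨h1, h2⟩, by simp [ind_support, Λ.mk_col_pos]⟩
  · refine Finset.card_image_le.trans ?_
    simp

theorem octagon {τ r : ℕ} (hr : 2 * τ + 2 ≤ r) {ψ : L → L → ZMod 2} (hψ : Cocycle mL r ψ)
    (c : X →₀ ZMod 2) {k k' : X} (hk : mX.d k k' ≤ τ) :
    ψ (Λ.mk' c k) (Λ.mk' c k') + ψ (Λ.mk' (c + single k' 1) k) (Λ.mk' (c + single k' 1) k') +
      (ψ (Λ.mk' (c + single k 1) k) (Λ.mk' (c + single k 1) k') +
        ψ (Λ.mk' (c + single k' 1 + single k 1) k) (Λ.mk' (c + single k' 1 + single k 1) k')) =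
    ψ (Λ.mk' c k) (Λ.mk' (c + single k 1) k) +
      ψ (Λ.mk' (c + single k' 1) k) (Λ.mk' (c + single k' 1 + single k 1) k) +
      (ψ (Λ.mk' c k') (Λ.mk' (c + single k' 1) k') +
        ψ (Λ.mk' (c + single k 1) k') (Λ.mk' (c + single k 1 + single k' 1) k')) := by
  have e : c + single k 1 + single k' 1 = c + single k' 1 + single k 1 := add_right_comm _ _ _
  have hm : ∀ c, mL.d (Λ.mk' c k) (Λ.mk' c k') ≤ τ := fun c => (Λ.move c k k').trans hk
  have d0 := mL.refl (Λ.mk' c k)
  have d1 := hm c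
  have d2 := Λ.toggle c k
  have d3 := hm (c + single k 1)
  have d4 := Λ.toggle c k'
  have d5 := hm (c + single k' 1)
  have d6 := Λ.toggle (c + single k' 1) k
  have d7 := Λ.toggle (c + single k 1) k'
  have d8 := hm (c + single k' 1 + single k 1)
  rw [e] at d7 ⊢
  have t1 := mL.tri (Λ.mk' c k) (Λ.mk' (c + single k 1) k) (Λ.mk' (c + single k 1) k')
  have t2 := mL.tri (Λ.mk' c k) (Λ.mk' c k') (Λ.mk' (c + single k' 1) k')
  have t3 := mL.tri (Λ.mk' c k) (Λ.mk' (c + single k' 1) k') (Λ.mk' (c + single k' 1) k)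
  have t4 := mL.tri (Λ.mk' c k) (Λ.mk' (c + single k 1) k')
    (Λ.mk' (c + single k' 1 + single k 1) k')
  have t5 := mL.tri (Λ.mk' c k) (Λ.mk' (c + single k' 1) k)
    (Λ.mk' (c + single k' 1 + single k 1) k)
  have s1 := mL.symm (Λ.mk' (c + single k' 1) k') (Λ.mk' (c + single k' 1) k)
  have key := fun y z => hψ.cone (Λ.mk' c k) (y := y) (z := z)
  rw [key (Λ.mk' c k) (Λ.mk' c k') (by omega) (by omega) (by omega),
    key (Λ.mk' (c + single k' 1) k) (Λ.mk' (c + single k' 1) k') (by omega) (by omega) (by omega),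
    key (Λ.mk' (c + single k 1) k) (Λ.mk' (c + single k 1) k') (by omega) (by omega) (by omega),
    key (Λ.mk' (c + single k' 1 + single k 1) k) (Λ.mk' (c + single k' 1 + single k 1) k')
      (by omega) (by omega) (by omega),
    key (Λ.mk' (c + single k' 1) k) (Λ.mk' (c + single k' 1 + single k 1) k)
      (by omega) (by omega) (by omega),
    key (Λ.mk' c k') (Λ.mk' (c + single k' 1) k') (by omega) (by omega) (by omega),
    key (Λ.mk' (c + single k 1) k') (Λ.mk' (c + single k' 1 + single k 1) k')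
      (by omega) (by omega) (by omega), hψ.self]
  ring

theorem surface {τ r : ℕ} (hr : 2 * τ + 2 ≤ r) {ψ : L → L → ZMod 2} (hψ : Cocycle mL r ψ)
    (c : X →₀ ZMod 2) (J : Finset X) : ∃ E : X → ZMod 2, ∀ k ∈ J, ∀ k' ∈ J, mX.d k k' ≤ τ →
      ∑ A ∈ J.powerset, ψ (Λ.mk' (c + ind A) k) (Λ.mk' (c + ind A) k') = E k + E k' := by
  classical
  refine ⟨fun k => ∑ A ∈ (J.erase k).powerset,
    ψ (Λ.mk' (c + ind A) k) (Λ.mk' (c + ind A + single k 1) k), fun k hk k' hk' hd => ?_⟩
  by_cases hkk : k = k'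
  · subst hkk
    simp [hψ.self, z2_add_self]
  set J0 := (J.erase k).erase k' with hJ0
  have n1 : k' ∉ J0 := by simp [hJ0]
  have n2 : k ∉ J0 := by simp [hJ0]
  have n3 : k ∉ insert k' J0 := by simp [hkk, n2]
  have e1 : J.erase k = insert k' J0 :=
    (Finset.insert_erase (Finset.mem_erase.2 ⟨Ne.symm hkk, hk'⟩)).symm
  have e2 : J.erase k' = insert k J0 := by
    rw [hJ0, Finset.erase_right_comm]
    exact (Finset.insert_erase (Finset.mem_erase.2 ⟨hkk, hk⟩)).symm
  have e3 : J = insert k (insert k' J0) := by rw [← e1, Finset.insert_erase hk]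
  beta_reduce
  rw [e1, e2]
  conv_lhs => rw [e3]
  rw [Finset.sum_powerset_insert n3, Finset.sum_powerset_insert n1, Finset.sum_powerset_insert n1,
    Finset.sum_powerset_insert n1, Finset.sum_powerset_insert n2]
  simp only [← Finset.sum_add_distrib]
  refine Finset.sum_congr rfl fun A hA => ?_
  have hA := Finset.mem_powerset.1 hA
  have m1 : k' ∉ A := fun h => n1 (hA h)
  have m2 : k ∉ A := fun h => n2 (hA h)
  have m3 : k ∉ insert k' A := by simp [hkk, m2]
  rw [ind_insert m3, ind_insert m1, ind_insert m2]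
  simp only [← add_assoc]
  have := Λ.octagon hr hψ (c + ind A) hd
  simp only [← add_assoc] at this
  exact this

end IsLamp

theorem exists_pattern {κ : Type} [DecidableEq κ] (J : κ → Finset X) (u : X → κ)
    (lab : ∀ i, ∀ x ∈ J i, u x = i) (t : (X →₀ ZMod 2) → ZMod 2) (h0 : t 0 ≠ 0)
    (h : ∀ i c, ∑ A ∈ (J i).powerset, t (c + ind A) = 0) (I : Finset κ) :
    ∃ c, t c ≠ 0 ∧ (∀ z ∈ c.support, z ∈ J (u z)) ∧ c.support.image u = I := by
  classical
  induction I using Finset.induction_on with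
  | empty => exact ⟨0, h0, by simp, by simp⟩
  | insert i I hi ih =>
    obtain ⟨c, h1, h2, h3⟩ := ih
    have : ∃ A ∈ (J i).powerset, A ≠ ∅ ∧ t (c + ind A) ≠ 0 := by
      by_contra hc
      push Not at hc
      have := h i c
      rw [Finset.sum_eq_single ∅ (fun A hA hne => hc A hA (Finset.nonempty_iff_ne_empty.2 hne)) (by simp)] at this
      exact h1 (by simpa [ind_empty] using this)
    obtain ⟨A, hA, hne, htA⟩ := this
    have hA := Finset.mem_powerset.1 hA
    have hdis : Disjoint c.support (ind A).support := by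
      rw [support_ind, Finset.disjoint_left]
      intro z hz hzA
      apply hi
      rw [← h3, ← lab i z (hA hzA)]
      exact Finset.mem_image_of_mem u hz
    have hs : (c + ind A).support = c.support ∪ A := by
      rw [Finsupp.support_add_eq hdis, support_ind]
    refine ⟨c + ind A, htA, ?_, ?_⟩
    · intro z hz
      rw [hs, Finset.mem_union] at hz
      rcases hz with hz | hz
      · exact h2 z hz
      · rw [lab i z (hA hz)]; exact hA hz
    · rw [hs, Finset.image_union, h3]
      have : A.image u = {i} := by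
        obtain ⟨z, hz⟩ := Finset.nonempty_iff_ne_empty.2 hne
        ext j
        simp only [Finset.mem_image, Finset.mem_singleton]
        exact ⟨fun ⟨w, hw, e⟩ => e ▸ lab i w (hA hw), fun e => ⟨z, hz, e ▸ lab i z (hA hz)⟩⟩
      rw [this, Finset.union_comm]; rfl

/-- Lower bound data. -/
structure LowData (m : NMetric X) (o : X) (τ r R n₀ N : ℕ) where
  ι : Type
  [fι : Fintype ι]
  a : ι → X
  b : ι → X
  cyc : IsCycle a b
  step : ∀ j, m.d (a j) (b j) ≤ τ
  ball : ∀ j, m.d o (a j) ≤ n₀ ∧ m.d o (b j) ≤ n₀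
  det : ∃ φ, Cocycle m R φ ∧ ∑ j, φ (a j) (b j) ≠ 0
  κ : Type
  [fκ : Fintype κ]
  card : N ≤ Fintype.card κ
  u : X → κ
  J : κ → Finset X
  lab : ∀ i, ∀ x ∈ J i, u x = i
  low : ∀ i θ (E : X → ZMod 2), Cocycle m r θ →
    (∀ x ∈ J i, ∀ y ∈ J i, m.d x y ≤ τ → θ x y = E x + E y) → ∑ j, θ (a j) (b j) = 0

attribute [instance] LowData.fι LowData.fκ

theorem LowData.lift {mX : NMetric X} {mL : NMetric L} (Λ : IsLamp mX mL) {o : X}
    {τ r R n₀ N : ℕ} (D : LowData mX o τ r R n₀ N) (hr : 2 * τ + 2 ≤ r) :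
    Nonempty (LowData mL (Λ.mk' 0 o) τ r R n₀ (2 ^ N)) := by
  classical
  obtain ⟨B, hB, -⟩ := Λ.exists_box (Finset.univ.biUnion D.J)
    (Finset.univ.image D.a ∪ Finset.univ.image D.b)
  refine ⟨{ ι := D.ι
            a := fun j => Λ.mk' 0 (D.a j)
            b := fun j => Λ.mk' 0 (D.b j)
            cyc := D.cyc.map (Λ.mk' 0)
            step := fun j => (Λ.move _ _ _).trans (D.step j)
            ball := fun j => ⟨(Λ.move _ _ _).trans (D.ball j).1, (Λ.move _ _ _).trans (D.ball j).2⟩
            det := ?_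
            κ := Finset D.κ
            card := ?_
            u := fun y => (Λ.col y).support.image D.u
            J := fun I => B.filter fun y => (Λ.col y).support.image D.u = I
            lab := fun I y hy => (Finset.mem_filter.1 hy).2
            low := ?_ }⟩
  · obtain ⟨φ, h1, h2⟩ := D.det
    refine ⟨fun y y' => φ (Λ.pos y) (Λ.pos y'),
      h1.comp Λ.pos fun y y' h => (Λ.pos_lip y y').trans h, ?_⟩
    simpa only [Λ.pos_mk] using h2
  · rw [Fintype.card_finset]
    exact Nat.pow_le_pow_right (by norm_num) D.card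
  · intro I ψ E hψ hE
    by_contra h0
    obtain ⟨c, h1, h2, h3⟩ := exists_pattern D.J D.u D.lab
      (fun c => ∑ j, ψ (Λ.mk' c (D.a j)) (Λ.mk' c (D.b j))) h0 (fun i c => by
        obtain ⟨E', hE'⟩ := Λ.surface hr hψ c (D.J i)
        rw [Finset.sum_comm]
        exact D.low i _ E' (Cocycle.sum (D.J i).powerset fun A _ =>
          hψ.comp (Λ.mk' (c + ind A)) fun x y h => (Λ.move _ _ _).trans h) hE') I
    apply h1
    have hm : ∀ x ∈ Finset.univ.image D.a ∪ Finset.univ.image D.b,
        Λ.mk' c x ∈ B.filter fun y => (Λ.col y).support.image D.u = I := fun x hx => by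
      rw [Finset.mem_filter, hB, Λ.col_mk, Λ.pos_mk]
      exact ⟨⟨fun z hz => Finset.mem_biUnion.2 ⟨D.u z, Finset.mem_univ _, h2 z hz⟩, hx⟩, h3⟩
    rw [Finset.sum_congr rfl fun j _ => hE _ (hm _ (by simp)) _ (hm _ (by simp))
      ((Λ.move _ _ _).trans (D.step j))]
    exact D.cyc fun x => E (Λ.mk' c x)

end Pool.Agent.P.MP_c4d261_al
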