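import Mathlib

/-!
Geodesic integer-valued metrics, lamplighter spaces over them, `ℤ/2`-valued cocycles at a scale.
-/

set_option autoImplicit false

open Finsupp

namespace Pool.Agent.P.MP_c4d261_al

/-- A graph metric. -/
structure NMetric (X : Type) where
  d : X → X → ℕ
  refl : ∀ x, d x x = 0
  symm : ∀ x y, d x y = d y x
  tri : ∀ x y z, d x z ≤ d x y + d y z
  eq_of : ∀ x y, d x y = 0 → x = y
  step : ∀ x y n, d x y ≤ n + 1 → ∃ z, d x z ≤ n ∧ d z y ≤ 1

variable {X Y L : Type}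

theorem NMetric.ind (m : NMetric X) (x : X) {P : ℕ → X → Prop} (h0 : P 0 x)
    (hs : ∀ n y z, m.d x y ≤ n → P n y → m.d y z ≤ 1 → P (n + 1) z) :
    ∀ n y, m.d x y ≤ n → P n y := by
  intro n
  induction n with
  | zero => intro y hy; rw [← m.eq_of x y (by omega)]; exact h0
  | succ n ih =>
    intro y hy
    obtain ⟨z, h1, h2⟩ := m.step x y n hy
    exact hs n z y h1 (ih z h1) h2

theorem NMetric.lip (m : NMetric X) (m' : NMetric Y) (F : X → Y) (M : ℕ)
    (h : ∀ x y, m.d x y ≤ 1 → m'.d (F x) (F y) ≤ M) (x y : X) :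
    m'.d (F x) (F y) ≤ M * m.d x y :=
  m.ind x (P := fun n y => m'.d (F x) (F y) ≤ M * n) (by simp [m'.refl])
    (fun n y z _ h1 h2 => by
      have := m'.tri (F x) (F y) (F z)
      have := h y z h2
      rw [Nat.mul_succ]; omega) _ y le_rfl

theorem z2_add_self (a : ZMod 2) : a + a = 0 := CharTwo.add_self_eq_zero a

theorem col_add_self (c : X →₀ ZMod 2) : c + c = 0 := by
  ext x; simp [z2_add_self]

/-- `L` is the lamplighter space over `X`. -/
structure IsLamp (mX : NMetric X) (mL : NMetric L) where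
  mk' : (X →₀ ZMod 2) → X → L
  col : L → X →₀ ZMod 2
  pos : L → X
  col_mk : ∀ c x, col (mk' c x) = c
  pos_mk : ∀ c x, pos (mk' c x) = x
  mk_col_pos : ∀ y, mk' (col y) (pos y) = y
  move : ∀ c x x', mL.d (mk' c x) (mk' c x') ≤ mX.d x x'
  toggle : ∀ c x, mL.d (mk' c x) (mk' (c + single x 1) x) ≤ 1
  adj : ∀ y y', mL.d y y' ≤ 1 → (col y' = col y ∧ mX.d (pos y) (pos y') ≤ 1) ∨
    (pos y' = pos y ∧ col y' = col y + single (pos y) 1)

namespace IsLamp

variable {mX : NMetric X} {mL : NMetric L} (Λ : IsLamp mX mL)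

theorem pos_lip (y y' : L) : mX.d (Λ.pos y) (Λ.pos y') ≤ mL.d y y' := by
  have := mL.lip mX Λ.pos 1 (fun y y' h => by
    rcases Λ.adj y y' h with h | h
    · exact h.2
    · rw [h.1, mX.refl]; omega) y y'
  omega

theorem near_of_ne (y y' : L) (z : X) (h : Λ.col y' z ≠ Λ.col y z) :
    mX.d (Λ.pos y) z ≤ mL.d y y' := by
  revert z
  refine mL.ind y (P := fun n y' => ∀ z, Λ.col y' z ≠ Λ.col y z → mX.d (Λ.pos y) z ≤ n)
    (by simp) (fun n y' y'' h1 ih h2 z hz => ?_) _ y' le_rfl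
  rcases Λ.adj y' y'' h2 with h | h
  · rw [h.1] at hz; have := ih z hz; omega
  · by_cases hz' : z = Λ.pos y'
    · have := Λ.pos_lip y y'; rw [hz']; omega
    · rw [h.2, Finsupp.add_apply, single_eq_of_ne hz', add_zero] at hz
      have := ih z hz; omega

theorem toggle_far (c : X →₀ ZMod 2) (x s : X) :
    mL.d (Λ.mk' c x) (Λ.mk' (c + single s 1) x) ≤ 2 * mX.d x s + 1 := by
  have h1 := Λ.move c x s
  have h2 := Λ.toggle c s
  have h3 := Λ.move (c + single s 1) s x
  have h4 := mL.tri (Λ.mk' c x) (Λ.mk' c s) (Λ.mk' (c + single s 1) x)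
  have h5 := mL.tri (Λ.mk' c s) (Λ.mk' (c + single s 1) s) (Λ.mk' (c + single s 1) x)
  rw [mX.symm s x] at h3
  omega

end IsLamp

/-- Cocycles at scale `r`. -/
def Cocycle (m : NMetric X) (r : ℕ) (θ : X → X → ZMod 2) : Prop :=
  ∀ x y z, m.d x y ≤ r → m.d y z ≤ r → m.d x z ≤ r → θ x y + θ y z = θ x z

namespace Cocycle

variable {m : NMetric X} {r : ℕ} {θ : X → X → ZMod 2}

theorem self (h : Cocycle m r θ) (x : X) : θ x x = 0 := by
  have := h x x x (by simp [m.refl]) (by simp [m.refl]) (by simp [m.refl])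
  rw [z2_add_self] at this
  exact this.symm

theorem comm (h : Cocycle m r θ) {x y : X} (hxy : m.d x y ≤ r) : θ x y = θ y x := by
  have := h x y x hxy (by rwa [m.symm]) (by simp [m.refl])
  rw [h.self] at this
  calc θ x y = θ x y + (θ y x + θ y x) := by rw [z2_add_self, add_zero]
    _ = θ y x := by rw [← add_assoc, this, zero_add]

/-- The square relation for the square `x → y → w`, `x → z → w`. -/
theorem square (h : Cocycle m r θ) {x y z w : X} (h1 : m.d x y ≤ r) (h2 : m.d y w ≤ r)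
    (h3 : m.d x z ≤ r) (h4 : m.d z w ≤ r) (h5 : m.d x w ≤ r) :
    θ x y + θ y w = θ x z + θ z w := by
  rw [h x y w h1 h2 h5, h x z w h3 h4 h5]

theorem comp {m' : NMetric Y} {r' : ℕ} (h : Cocycle m r θ) (F : Y → X)
    (hF : ∀ x y, m'.d x y ≤ r' → m.d (F x) (F y) ≤ r) :
    Cocycle m' r' fun x y => θ (F x) (F y) := fun x y z h1 h2 h3 =>
  h _ _ _ (hF x y h1) (hF y z h2) (hF x z h3)

theorem add_cob (h : Cocycle m r θ) (U : X → ZMod 2) :
    Cocycle m r fun x y => θ x y + (U x + U y) := fun x y z h1 h2 h3 => by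
  beta_reduce
  rw [← h x y z h1 h2 h3]
  have := z2_add_self (U y)
  linear_combination this

theorem sum {κ : Type} (s : Finset κ) {Θ : κ → X → X → ZMod 2} (h : ∀ i ∈ s, Cocycle m r (Θ i)) :
    Cocycle m r fun x y => ∑ i ∈ s, Θ i x y := fun x y z h1 h2 h3 => by
  beta_reduce
  rw [← Finset.sum_add_distrib]
  exact Finset.sum_congr rfl fun i hi => h i hi x y z h1 h2 h3

end Cocycle

/-- The edges `(a j, b j)` form a cycle modulo `2`. -/
def IsCycle {ι : Type} [Fintype ι] (a b : ι → X) : Prop :=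
  ∀ U : X → ZMod 2, ∑ j, (U (a j) + U (b j)) = 0

theorem IsCycle.map {ι : Type} [Fintype ι] {a b : ι → X} (h : IsCycle a b) (F : X → Y) :
    IsCycle (fun j => F (a j)) fun j => F (b j) := fun U => h fun x => U (F x)

theorem IsCycle.sum_eq {ι : Type} [Fintype ι] {a b : ι → X} (h : IsCycle a b)
    {s t : ι → ZMod 2} (U : X → ZMod 2) (hst : ∀ j, s j = t j + (U (a j) + U (b j))) :
    ∑ j, s j = ∑ j, t j := by
  rw [Finset.sum_congr rfl fun j _ => hst j, Finset.sum_add_distrib, h U, add_zero]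

end Pool.Agent.P.MP_c4d261_al
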