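import Pool.Agent.P.MP_c4d261_al.Defs
import Pool.Agent.P.MP_c4d261_al.Graph
import Pool.Agent.P.MP_c4d261_al.Tower

/-! Word metrics as graph metrics; lamplighter groups as lamplighter spaces; exactness of
cocycles at large scale in finitely presented groups. -/

set_option autoImplicit false

open Finsupp

namespace Pool.Agent.P.MP_c4d261_al

variable {G G' : Type} [Group G] [Group G']

theorem wl_le (S : Finset G) (l : List G) (hl : ∀ x ∈ l, x ∈ S ∨ x⁻¹ ∈ S) :
    wordLength S l.prod ≤ l.length := Nat.sInf_le ⟨l, rfl, hl, rfl⟩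

theorem exists_word {S : Finset G} (hS : Subgroup.closure (S : Set G) = ⊤) (g : G) :
    ∃ l : List G, l.length = wordLength S g ∧ (∀ x ∈ l, x ∈ S ∨ x⁻¹ ∈ S) ∧ l.prod = g := by
  have h1 : g ∈ (Subgroup.closure (S : Set G)).toSubmonoid := by rw [hS]; trivial
  rw [Subgroup.closure_toSubmonoid] at h1
  obtain ⟨l, h2, h3⟩ := Submonoid.exists_list_of_mem_closure h1
  exact Nat.sInf_mem (s := {n | ∃ l : List G, l.length = n ∧ (∀ x ∈ l, x ∈ S ∨ x⁻¹ ∈ S) ∧
    l.prod = g}) ⟨l.length, l, rfl, fun x hx => by simpa using h2 x hx, h3⟩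

theorem wl_one (S : Finset G) : wordLength S 1 = 0 := by
  simpa using wl_le S [] (by simp)

theorem wl_gen {S : Finset G} {g : G} (h : g ∈ S ∨ g⁻¹ ∈ S) : wordLength S g ≤ 1 := by
  simpa using wl_le S [g] (by simpa using h)

section
variable {S : Finset G} (hS : Subgroup.closure (S : Set G) = ⊤)
include hS

theorem wl_mul (g h : G) : wordLength S (g * h) ≤ wordLength S g + wordLength S h := by
  obtain ⟨l, a1, a2, a3⟩ := exists_word hS g
  obtain ⟨l', b1, b2, b3⟩ := exists_word hS h
  have := wl_le S (l ++ l') fun x hx => (List.mem_append.1 hx).elim (a2 x) (b2 x)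
  rwa [List.prod_append, List.length_append, a1, b1, a3, b3] at this

theorem wl_inv_le (g : G) : wordLength S g⁻¹ ≤ wordLength S g := by
  obtain ⟨l, a1, a2, a3⟩ := exists_word hS g
  have := wl_le S (l.map fun x => x⁻¹).reverse fun x hx => by
    obtain ⟨y, hy, rfl⟩ := List.mem_map.1 (List.mem_reverse.1 hx)
    rw [inv_inv]
    exact (a2 y hy).symm
  rwa [← List.prod_inv_reverse, List.length_reverse, List.length_map, a1, a3] at this

theorem wl_inv (g : G) : wordLength S g⁻¹ = wordLength S g :=
  le_antisymm (wl_inv_le hS g) (by simpa using wl_inv_le hS g⁻¹)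

theorem wl_eq_zero {g : G} (h : wordLength S g = 0) : g = 1 := by
  obtain ⟨l, a1, -, a3⟩ := exists_word hS g
  rw [h, List.length_eq_zero_iff] at a1
  rw [← a3, a1, List.prod_nil]

theorem wl_le_one {g : G} (h : wordLength S g ≤ 1) : g = 1 ∨ g ∈ S ∨ g⁻¹ ∈ S := by
  obtain ⟨l, a1, a2, a3⟩ := exists_word hS g
  match l, a1, a2, a3 with
  | [], _, _, a3 => exact Or.inl a3.symm
  | [x], _, a2, a3 => exact Or.inr (by simpa [← a3] using a2)
  | _ :: _ :: _, a1, _, _ => simp at a1; omega

end

/-- The word metric as a graph metric. -/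
noncomputable def wm (S : Finset G) (hS : Subgroup.closure (S : Set G) = ⊤) : NMetric G where
  d x y := wordLength S (x⁻¹ * y)
  refl x := by simp [wl_one]
  symm x y := by rw [← wl_inv hS]; simp
  tri x y z := by simpa [mul_assoc] using wl_mul hS (x⁻¹ * y) (y⁻¹ * z)
  eq_of x y h := by simpa [inv_mul_eq_one] using wl_eq_zero hS h
  step x y n h := by
    obtain ⟨l, a1, a2, a3⟩ := exists_word hS (x⁻¹ * y)
    rcases List.eq_nil_or_concat l with rfl | ⟨l', s, rfl⟩
    · refine ⟨y, ?_, by simp [wl_one]⟩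
      simp at a1
      omega
    · simp only [List.concat_eq_append, List.length_append, List.length_singleton,
        List.prod_append, List.prod_singleton] at a1 a2 a3
      refine ⟨x * l'.prod, ?_, ?_⟩
      · have := wl_le S l' fun x hx => a2 x (List.mem_append_left _ hx)
        rw [inv_mul_cancel_left]
        omega
      · have : (x * l'.prod)⁻¹ * y = s := by
          rw [mul_inv_rev, mul_assoc, ← a3, inv_mul_cancel_left]
        rw [this]
        exact wl_gen (a2 s (by simp))

section
variable {S : Finset G} (hS : Subgroup.closure (S : Set G) = ⊤)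

theorem wm_d (x y : G) : (wm S hS).d x y = wordLength S (x⁻¹ * y) := rfl

theorem wm_adj {x y : G} (h : (wm S hS).d x y ≤ 1) : y = x ∨ ∃ s ∈ S, y = x * s ∨ y = x * s⁻¹ := by
  rcases wl_le_one hS h with h | h | h
  · exact Or.inl (inv_mul_eq_one.1 h).symm
  · exact Or.inr ⟨_, h, Or.inl (by simp)⟩
  · exact Or.inr ⟨_, h, Or.inr (by simp)⟩

theorem wm_deg : Deg (wm S hS) (2 * S.card + 1) := by
  classical
  intro x
  refine ⟨insert x (S.image (fun s => x * s) ∪ S.image fun s => x * s⁻¹), ?_, fun y hy => ?_⟩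
  · have a1 := Finset.card_insert_le x (S.image (fun s => x * s) ∪ S.image fun s => x * s⁻¹)
    have a2 := Finset.card_union_le (S.image (fun s => x * s)) (S.image fun s => x * s⁻¹)
    have a3 := Finset.card_image_le (s := S) (f := fun s => x * s)
    have a4 := Finset.card_image_le (s := S) (f := fun s => x * s⁻¹)
    omega
  · simp only [Finset.mem_insert, Finset.mem_union, Finset.mem_image]
    rcases wm_adj hS hy with h | ⟨s, hs, h | h⟩
    · exact Or.inl h
    · exact Or.inr (Or.inl ⟨s, hs, h.symm⟩)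
    · exact Or.inr (Or.inr ⟨s, hs, h.symm⟩)

theorem wm_lip {S' : Finset G'} (hS' : Subgroup.closure (S' : Set G') = ⊤) (φ : G →* G') {M : ℕ}
    (hM : ∀ s ∈ S, wordLength S' (φ s) ≤ M) (x y : G) :
    (wm S' hS').d (φ x) (φ y) ≤ M * (wm S hS).d x y := by
  refine (wm S hS).lip (wm S' hS') φ M (fun x y h => ?_) x y
  rcases wm_adj hS h with rfl | ⟨s, hs, rfl | rfl⟩
  · simp [NMetric.refl]
  · simpa [wm_d] using hM s hs
  · simpa [wm_d, wl_inv hS'] using hM s hs

theorem wm_coarse {S' : Finset G} (hS' : Subgroup.closure (S' : Set G) = ⊤) :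
    Coarse (wm S hS) (wm S' hS') := by
  have h1 := wm_lip hS hS' (MonoidHom.id G) (M := S.sup (wordLength S'))
    fun s hs => Finset.le_sup (f := wordLength S') hs
  have h2 := wm_lip hS' hS (MonoidHom.id G) (M := S'.sup (wordLength S))
    fun s hs => Finset.le_sup (f := wordLength S) hs
  refine ⟨id, id, S.sup (wordLength S') + S'.sup (wordLength S), fun x y => ?_, fun x y => ?_,
    fun x => by simp [NMetric.refl], fun x => by simp [NMetric.refl]⟩
  · have := h1 x y
    simp only [MonoidHom.id_apply, id] at this ⊢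
    nlinarith [Nat.zero_le (S'.sup (wordLength S) * (wm S hS).d x y)]
  · have := h2 x y
    simp only [MonoidHom.id_apply, id] at this ⊢
    nlinarith [Nat.zero_le (S.sup (wordLength S') * (wm S' hS').d x y)]

theorem QuasiIsometric.coarse (h : QuasiIsometric G G') {S' : Finset G'}
    (hS' : Subgroup.closure (S' : Set G') = ⊤) : Coarse (wm S hS) (wm S' hS') := by
  obtain ⟨T, T', hT, hT', f, K, C, hK, hC, h1, h2⟩ := h
  refine (wm_coarse hS hT).trans (Coarse.trans ?_ (wm_coarse hT' hS'))
  choose g hg using h2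
  obtain ⟨l, hl⟩ := exists_nat_ge (K + C + 3 * K * C)
  have hKC : 0 ≤ K * C := by positivity
  have low : ∀ x y, ((wm T hT).d x y : ℝ) ≤ K * ((wm T' hT').d (f x) (f y) + C) := fun x y => by
    have := (h1 x y).1
    rw [sub_le_iff_le_add, div_le_iff₀ (by linarith)] at this
    rw [mul_comm K]
    exact this
  have hg' : ∀ z, ((wm T' hT').d z (f (g z)) : ℝ) ≤ C := fun z => by
    rw [NMetric.symm]; exact hg z
  refine ⟨f, g, l, fun x y => ?_, fun x y => ?_, fun x => ?_, fun y => ?_⟩
  · have := (h1 x y).2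
    rw [← wm_d hT, ← wm_d hT'] at this
    have h0 : (0 : ℝ) ≤ (wm T hT).d x y := Nat.cast_nonneg _
    have : ((wm T' hT').d (f x) (f y) : ℝ) ≤ l * (wm T hT).d x y + l := by nlinarith
    exact_mod_cast this
  · have a1 := low (g x) (g y)
    have a2 : ((wm T' hT').d (f (g x)) (f (g y)) : ℝ) ≤
        (wm T' hT').d x (f (g x)) + ((wm T' hT').d x y + (wm T' hT').d y (f (g y))) := by
      have b1 := (wm T' hT').tri (f (g x)) x (f (g y))
      have b2 := (wm T' hT').tri x y (f (g y))
      rw [(wm T' hT').symm (f (g x)) x] at b1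
      exact_mod_cast b1.trans (by omega)
    have a3 := hg' x
    have a4 := hg' y
    have h0 : (0 : ℝ) ≤ (wm T' hT').d x y := Nat.cast_nonneg _
    have a5 : ((wm T hT).d (g x) (g y) : ℝ) ≤ K * ((wm T' hT').d x y + 3 * C) :=
      a1.trans (mul_le_mul_of_nonneg_left (by linarith) (by linarith))
    have : ((wm T hT).d (g x) (g y) : ℝ) ≤ l * (wm T' hT').d x y + l := by nlinarith
    exact_mod_cast this
  · have a1 := low x (g (f x))
    have a2 := hg' (f x)
    have : ((wm T hT).d x (g (f x)) : ℝ) ≤ l := by nlinarith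
    exact_mod_cast this
  · have a2 := hg' y
    have : ((wm T' hT').d y (f (g y)) : ℝ) ≤ l := by nlinarith
    exact_mod_cast this

end

theorem shift_single (h x : G) (a : ZMod 2) :
    shift G h (Multiplicative.ofAdd (single x a)) = Multiplicative.ofAdd (single (h * x) a) := by
  simp [shift]

theorem lamp_isLamp {S : Finset G} (hS : Subgroup.closure (S : Set G) = ⊤) :
    ∃ (S' : Finset (Lamp G)) (hS' : Subgroup.closure (S' : Set (Lamp G)) = ⊤)
      (Λ : IsLamp (wm S hS) (wm S' hS')), Λ.mk' 0 1 = 1 := by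
  classical
  let mk : (G →₀ ZMod 2) → G → Lamp G := fun c x => ⟨Multiplicative.ofAdd c, x⟩
  let ι : G →* Lamp G := SemidirectProduct.inr
  let a : Lamp G := mk (single 1 1) 1
  have e1 : ∀ c x y, mk c x * ι y = mk c (x * y) := fun c x y =>
    SemidirectProduct.ext (by
      change Multiplicative.ofAdd c * shift G x 1 = _
      rw [map_one, mul_one]) rfl
  have e2 : ∀ c x, mk c x * a = mk (c + single x 1) x := fun c x =>
    SemidirectProduct.ext (by
      change Multiplicative.ofAdd c * shift G x (Multiplicative.ofAdd (single 1 1)) = _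
      rw [shift_single, mul_one]; rfl) (mul_one x)
  have e0 : mk 0 1 = 1 := rfl
  have e3 : a⁻¹ = a := by
    rw [inv_eq_iff_mul_eq_one, e2, col_add_self, e0]
  have hS' : Subgroup.closure ((insert a (S.image ι) : Finset (Lamp G)) : Set (Lamp G)) = ⊤ := by
    set K := Subgroup.closure ((insert a (S.image ι) : Finset (Lamp G)) : Set (Lamp G)) with hK
    have h1 : ∀ x, ι x ∈ K := fun x => by
      have : x ∈ K.comap ι := by
        refine ((Subgroup.closure_le _).2 fun s hs => ?_) (hS ▸ Subgroup.mem_top x :)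
        exact Subgroup.subset_closure (by simp; exact Or.inr ⟨s, hs, rfl⟩)
      exact this
    have h2 : a ∈ K := Subgroup.subset_closure (by simp)
    have h3 : ∀ c, mk c 1 ∈ K := fun c => by
      induction c using Finsupp.induction with
      | zero => exact K.one_mem
      | single_add x b c _ hb ih =>
        have : mk (single x b + c) 1 = mk c 1 * ι x * a * ι x⁻¹ := by
          rw [e1, e2, e1, z2_eq_one hb, one_mul, mul_inv_cancel, add_comm]
        rw [this]
        exact K.mul_mem (K.mul_mem (K.mul_mem ih (h1 x)) h2) (h1 _)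
    refine top_unique fun y _ => ?_
    have : y = mk (Multiplicative.toAdd y.left) 1 * ι y.right := by rw [e1, one_mul]; rfl
    rw [this]
    exact K.mul_mem (h3 _) (h1 _)
  refine ⟨insert a (S.image ι), hS',
    { mk' := mk
      col := fun y => Multiplicative.toAdd y.left
      pos := fun y => y.right
      col_mk := fun _ _ => rfl
      pos_mk := fun _ _ => rfl
      mk_col_pos := fun _ => rfl
      move := fun c x x' => ?_
      toggle := fun c x => ?_
      adj := fun y y' h => ?_ }, e0⟩
  · have := wm_lip hS hS' ι (M := 1)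
      (fun s hs => wl_gen (Or.inl (by simp; exact Or.inr ⟨s, hs, rfl⟩))) x x'
    have e : (mk c x)⁻¹ * mk c x' = (ι x)⁻¹ * ι x' := by
      rw [inv_mul_eq_iff_eq_mul, ← map_inv, ← map_mul, e1, mul_inv_cancel_left]
    rw [wm_d, e, ← wm_d hS']
    omega
  · rw [wm_d, ← e2, inv_mul_cancel_left]
    exact wl_gen (Or.inl (by simp))
  · have ey : y = mk (Multiplicative.toAdd y.left) y.right := rfl
    have m1 : ∀ s, (s ∈ S ∨ s⁻¹ ∈ S) → y' = y * ι s →
        Multiplicative.toAdd y'.left = Multiplicative.toAdd y.left ∧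
          (wm S hS).d y.right y'.right ≤ 1 := fun s hs e => by
      rw [e, ey, e1]
      exact ⟨rfl, by simpa [wm_d, mk] using wl_gen hs⟩
    have m2 : y' = y * a → y'.right = y.right ∧
        Multiplicative.toAdd y'.left = Multiplicative.toAdd y.left + single y.right 1 := fun e => by
      rw [e, ey, e2]
      exact ⟨rfl, rfl⟩
    rcases wm_adj hS' h with rfl | ⟨s, hs, h⟩
    · exact Or.inl ⟨rfl, by simp [NMetric.refl]⟩
    · rcases Finset.mem_insert.1 hs with rfl | hs
      · rw [e3, or_self] at h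
        exact Or.inr (m2 h)
      · obtain ⟨t, ht, rfl⟩ := Finset.mem_image.1 hs
        rcases h with h | h
        · exact Or.inl (m1 t (Or.inl ht) h)
        · exact Or.inl (m1 t⁻¹ (Or.inr (by simpa using ht)) (by rwa [map_inv]))

/-- The generator of the action on the double cover defined by a cocycle. -/
def dbl (θ : G → G → ZMod 2) (s : G) : Equiv.Perm (G × ZMod 2) where
  toFun q := (q.1 * s⁻¹, q.2 + θ q.1 (q.1 * s⁻¹))
  invFun q := (q.1 * s, q.2 + θ (q.1 * s) q.1)
  left_inv q := by simp [add_assoc, z2_add_self]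
  right_inv q := by simp [add_assoc, z2_add_self]

theorem exact_of_fp (G : Type) [Group G] [h : Group.IsFinitelyPresented G] :
    ∃ (S : Finset G) (hS : Subgroup.closure (S : Set G) = ⊤) (r₀ : ℕ),
      ∀ R, r₀ ≤ R → Exact (wm S hS) R := by
  classical
  obtain ⟨n, φ, hφ, Rel, hfin, hRel⟩ := h.out
  let s : Fin n → G := fun i => φ (FreeGroup.of i)
  have hS : Subgroup.closure ((Finset.univ.image s : Finset G) : Set G) = ⊤ := by
    have : ((Finset.univ.image s : Finset G) : Set G) = φ '' Set.range FreeGroup.of := by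
      ext x; simp [s]
    rw [this, ← MonoidHom.map_closure, FreeGroup.closure_range_of]
    exact Subgroup.map_top_of_surjective φ hφ
  have hs : ∀ i, wordLength (Finset.univ.image s) (s i) ≤ 1 := fun i => wl_gen (Or.inl (by simp))
  let Φ : (G → G → ZMod 2) → FreeGroup (Fin n) →* Equiv.Perm (G × ZMod 2) := fun θ =>
    FreeGroup.lift fun i => dbl θ (s i)
  have key : ∀ w, ∃ k, wordLength (Finset.univ.image s) (φ w) ≤ k ∧ ∀ R, k ≤ R → ∀ θ,
      Cocycle (wm _ hS) R θ → ∀ h ε, Φ θ w (h, ε) = (h * (φ w)⁻¹, ε + θ h (h * (φ w)⁻¹)) := by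
    intro w
    induction w using FreeGroup.induction_on with
    | C1 => exact ⟨0, by simp [wl_one], fun R _ θ hθ h ε => by simp [hθ.self]⟩
    | of i => exact ⟨1, hs i, fun R _ θ hθ h ε => by simp [Φ, dbl, s]⟩
    | inv_of i _ =>
      refine ⟨1, by rw [map_inv, wl_inv hS]; exact hs i, fun R hR θ hθ h ε => ?_⟩
      rw [map_inv, map_inv, inv_inv, hθ.comm (x := h) (by simpa [wm_d] using (hs i).trans hR)]
      simp only [Φ, FreeGroup.lift_apply_of]
      rfl
    | mul w w' ih ih' =>
      obtain ⟨k, a1, a2⟩ := ih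
      obtain ⟨k', b1, b2⟩ := ih'
      have c1 : wordLength (Finset.univ.image s) (φ (w * w')) ≤ k + k' := by
        rw [map_mul]; exact (wl_mul hS _ _).trans (by omega)
      refine ⟨k + k', c1, fun R hR θ hθ h ε => ?_⟩
      have e : h * (φ w')⁻¹ * (φ w)⁻¹ = h * (φ (w * w'))⁻¹ := by simp [mul_assoc]
      rw [map_mul (Φ θ), Equiv.Perm.mul_apply, b2 R (by omega) θ hθ, a2 R (by omega) θ hθ,
        add_assoc, hθ _ _ _ (by rw [wm_d, inv_mul_cancel_left, wl_inv hS]; omega)
          (by rw [wm_d, inv_mul_cancel_left, wl_inv hS]; omega)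
          (by rw [e, wm_d, inv_mul_cancel_left, wl_inv hS]; omega), e]
  choose k _ hk using key
  refine ⟨_, hS, hfin.toFinset.sup k, fun R hR θ hθ => ?_⟩
  have hker : φ.ker ≤ (Φ θ).ker := by
    rw [← hRel]
    refine Subgroup.normalClosure_le_normal fun w hw => ?_
    have h1 : φ w = 1 := by
      have : w ∈ φ.ker := hRel ▸ Subgroup.subset_normalClosure hw
      exact this
    refine Equiv.ext fun q => ?_
    rw [hk w R ((Finset.le_sup (f := k) (hfin.mem_toFinset.2 hw)).trans hR) θ hθ, h1]
    simp [hθ.self]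
  have hfst : ∀ w q, (Φ θ w q).1 = q.1 * (φ w)⁻¹ := by
    intro w
    induction w using FreeGroup.induction_on with
    | C1 => simp
    | of i => intro q; simp [Φ, dbl, s]
    | inv_of i _ =>
      intro q
      rw [map_inv, map_inv, inv_inv]
      simp only [Φ, FreeGroup.lift_apply_of]
      rfl
    | mul w w' ih ih' => intro q; rw [map_mul, Equiv.Perm.mul_apply, ih, ih']; simp [mul_assoc]
  choose w hw using fun h : G => hφ h⁻¹
  let E : G → ZMod 2 := fun h => (Φ θ (w h) (1, 0)).2
  have hE : ∀ x i, θ x (x * (s i)⁻¹) = E x + E (x * (s i)⁻¹) := by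
    intro x i
    have h1 : Φ θ (w (x * (s i)⁻¹)) = Φ θ (FreeGroup.of i * w x) := by
      rw [← mul_inv_eq_one, ← map_inv (Φ θ), ← map_mul]
      refine hker ?_
      rw [MonoidHom.mem_ker, map_mul, map_inv, map_mul, hw, hw]
      simp [s]
    have h2 : Φ θ (w x) (1, 0) = (x, E x) := Prod.ext (by rw [hfst, hw]; simp) rfl
    have h3 : E (x * (s i)⁻¹) = E x + θ x (x * (s i)⁻¹) := by
      simp only [E] at h2 ⊢
      rw [h1, map_mul, Equiv.Perm.mul_apply, h2]
      simp [Φ, dbl]
    rw [h3, ← add_assoc, z2_add_self, zero_add]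
  refine ⟨E, fun x y hxy => ?_⟩
  refine (wm _ hS).ind x (P := fun n y => n ≤ R → θ x y = E x + E y)
    (fun _ => by rw [hθ.self, z2_add_self]) (fun n y z h1 ih h2 hn => ?_) _ y le_rfl hxy
  have h3 : θ y z = E y + E z := by
    rcases wm_adj hS h2 with rfl | ⟨t, ht, e | e⟩
    · rw [hθ.self, z2_add_self]
    · obtain ⟨i, -, rfl⟩ := Finset.mem_image.1 ht
      have : y = z * (s i)⁻¹ := by simp [e]
      rw [hθ.comm (by omega), add_comm, this]
      exact hE z i
    · obtain ⟨i, -, rfl⟩ := Finset.mem_image.1 ht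
      rw [e]
      exact hE y i
  have h4 := (wm _ hS).tri x y z
  rw [← hθ x y z (by omega) (by omega) (by omega), ih (by omega), h3]
  have := z2_add_self (E y)
  linear_combination this

end Pool.Agent.P.MP_c4d261_al
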